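import Mathlib
import Pool.Agent.H46.GA.Defs
import Pool.Agent.H90.TDP.Ifp

/-!
Definitions for the block GA of the extension to all `p ≥ 2` (compare `Pool/Agent/H46/GA/Defs.lean`).

`L = Δ + 2 p`. A vertex with the colour `j` blocks the `2 p - 1` labels of the interval `BB p L j`, which contains all labels
at distance less than `p` from `j`. `T1`, `T2` are as in `Pool/Agent/H90/TDP/Ifp.lean`.
-/

set_option autoImplicit false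

namespace Pool.Agent.H46.GP

open Finset Classical
open Pool.Agent.H71.DN Pool.Agent.H71.DX Pool.Agent.H71.DR Pool.Agent.H71.HL Pool.Agent.H71.DC
open Pool.Agent.H71.TD Pool.Agent.H90.TDP Pool.Agent.H46.GA

/-- The `2 p - 1` labels blocked by the colour `j`. -/
def BB (p L j : ℕ) : Finset ℕ :=
  Ico (min (j - (p - 1)) (L - (2 * p - 1))) (min (j - (p - 1)) (L - (2 * p - 1)) + (2 * p - 1))

/-- The number of vertices of the piece `j` whose colour blocks the label `ℓ`. -/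
noncomputable def bw {V : Type} [Fintype V] (p L : ℕ) (nd : V → ℕ) (cc : V → ℕ) (j ℓ : ℕ) : ℕ :=
  ((pt nd j).filter fun v => ℓ ∈ BB p L (cc v)).card

/-- The number of units `a j` that block the label `ℓ`. -/
def sw (p L : ℕ) (a : ℕ → ℕ) (ℓ : ℕ) : ℕ :=
  ∑ j ∈ (range L).filter fun j => ℓ ∈ BB p L j, a j

/-- The difference between the numbers of holes in the pieces `2 i` and `2 i + 1` that is needed at the label `ℓ`. -/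
noncomputable def gp {V : Type} [Fintype V] (p L : ℕ) (nd : V → ℕ) (φ : ℕ → V → V)
    (cc : V → ℕ) (i ℓ : ℕ) : ℤ :=
  (bw p L nd cc (2 * i + 1) ℓ : ℤ) - bw p L nd cc (2 * i) ℓ - uu nd (φ ℓ) i

/-- The facts about the graph, the pieces, the quarters and the colouring `φ` of the defect edges. -/
structure Fy {V : Type} [Fintype V] (G : SimpleGraph V) (Δ p k : ℕ) (ty : ℕ → Prop)
    (nd qt : V → ℕ) (sf : ℕ → Finset V) (t : ℕ) (φ : ℕ → V → V) (c0 : V → ℕ)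
    (d D r z e : ℕ) : Prop where
  le : ∀ v, nd v ≤ 2 * k
  odd : ∀ i < k, ty i → pt nd (2 * i + 1) = ∅
  even : ∀ i < k, ty i → Even (pt nd (2 * i)).card
  bal : ∀ i < k, ¬ ty i → (pt nd (2 * i)).card = (pt nd (2 * i + 1)).card
  big : ∀ i < k, 9 * Δ ≤ 10 * (pt nd (2 * i)).card
  half : ∀ v, nd v < 2 * k → Δ ≤ 4 * (univ.filter fun u => nd u = nd v ∧ qt u < 2).card ∧
    Δ ≤ 4 * (univ.filter fun u => nd u = nd v ∧ ¬ qt u < 2).card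
  dF : ∀ v, nd v < 2 * k → dg (Fg G k ty nd) v ≤ d
  hi : (univ.filter fun v => nd v < 2 * k ∧ e < dg (Fg G k ty nd) v).card ≤ e
  lo : (pt nd (2 * k)).card ≤ r
  cod : ∀ i < k, ty i → ∀ v ∈ pt nd (2 * i),
    ((pt nd (2 * i)).filter fun u => u ≠ v ∧ ¬ G.Adj v u).card + (Δ + 1) =
      (pt nd (2 * i)).card + dg (Fg G k ty nd) v
  sf1 : ∀ i < k, ty i → (sf i).card ≤ 1
  nn : ∀ i < k, ty i → ∀ w ∈ pt nd (2 * k), w ∉ sf i →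
    z ≤ ((pt nd (2 * i)).filter fun v => ¬ G.Adj w v).card
  cnt : ∀ v, ((range (Δ + 2 * p)).filter fun ℓ => φ ℓ v ≠ v).card = dg (Fg G k ty nd) v
  adj : ∀ ℓ < Δ + 2 * p, ∀ v, φ ℓ v ≠ v → (Fg G k ty nd).Adj v (φ ℓ v)
  t1 : ∀ ℓ, T1 p t ℓ → ∀ v, nd v < 2 * k → qt v < 2 → φ ℓ v = v
  t2 : ∀ ℓ, T2 p t ℓ → ∀ v, nd v < 2 * k → 2 ≤ qt v → φ ℓ v = v
  c1 : ∀ w ∈ pt nd (2 * k), 6 * p + 2 * t ≤ c0 w ∧ c0 w + p < Δ + 2 * p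
  c2 : ∀ w ∈ pt nd (2 * k), ∀ w' ∈ pt nd (2 * k), c0 w = c0 w' → w = w'
  c3 : ∀ w ∈ pt nd (2 * k), ∀ ℓ, c0 w < ℓ + p → ℓ ≤ c0 w + p → φ ℓ w = w
  c4 : ∀ w ∈ pt nd (2 * k), ∃ i, c0 w = 6 * p + 2 * t + (2 * p - 1) * i
  dlo : ∀ w ∈ pt nd (2 * k), dg (Fg G k ty nd) w = Δ
  sm : ∀ ℓ < Δ + 2 * p, (univ.filter fun v => nd v < 2 * k ∧ φ ℓ v ≠ v).card ≤ D
  ub : ∀ i < k, ¬ ty i → ∀ ℓ < Δ + 2 * p, |uu nd (φ ℓ) i| ≤ 3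
  us : ∀ i < k, ¬ ty i → 5 * ∑ ℓ ∈ range (Δ + 2 * p), max 0 (-uu nd (φ ℓ) i) ≤ 4 * Δ
  sE : ∀ i < k, ty i → Even (∑ ℓ ∈ range (Δ + 2 * p), cv nd (φ ℓ) (2 * i))
  sB : ∀ i < k, ¬ ty i → ∑ ℓ ∈ range (Δ + 2 * p), uu nd (φ ℓ) i = 0

/-- The vertices of `W` (in expanding parts) are coloured by `lam` (compare `WOut`). -/
structure Wp {V : Type} [Fintype V] (G : SimpleGraph V) (Δ p k : ℕ) (ty : ℕ → Prop)
    (nd : V → ℕ) (t : ℕ) (φ : ℕ → V → V) (c0 : V → ℕ) (zi : ℕ → ℕ) (s z : ℕ)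
    (W : Finset V) (lam : V → ℕ) : Prop where
  sub : ∀ v ∈ W, nd v < 2 * k ∧ ty (nd v / 2)
  rg : ∀ v ∈ W, 6 * p + 2 * t ≤ lam v ∧ lam v < Δ + 2 * p
  sp : ∀ v ∈ W, ∀ w ∈ pt nd (2 * k), lam v ≠ c0 w
  fr : ∀ v ∈ W, ∀ ℓ ∈ BB p (Δ + 2 * p) (lam v), φ ℓ v = v
  pr : ∀ a ∈ W, ∀ b ∈ W, G.Adj a b → lam a ≠ lam b
  sz : ∀ j ℓ, wn nd W lam j ℓ ≤ s
  alt : ∀ i < k, ty i → (pt nd (2 * i) ⊆ W ∧ Δ + 2 * p ≤ (pt nd (2 * i)).card) ∨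
    (8 * (W.filter fun v => nd v = 2 * i).card ≤ z ∧
      ∃ Λ : Finset ℕ, Λ ⊆ range (Δ + 2 * p) ∧ zi i ∉ Λ ∧
        Λ.card = (pt nd (2 * i)).card - (Δ + 2 * p - 1) ∧
        (∀ v ∈ W, nd v = 2 * i → lam v ∈ Λ) ∧ ∀ ℓ ∈ Λ, wn nd W lam (2 * i) ℓ = 2)

/-- Numbers `a j ℓ` of vertices of the piece `j` outside `W` that shall get the label `ℓ`. -/
structure Dp {V : Type} [Fintype V] (G : SimpleGraph V) (Δ p k : ℕ) (ty : ℕ → Prop)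
    (nd : V → ℕ) (t : ℕ) (c0 : V → ℕ) (z K : ℕ) (W : Finset V) (lam : V → ℕ)
    (a : ℕ → ℕ → ℕ) : Prop where
  sum : ∀ j < 2 * k, ∑ ℓ ∈ range (Δ + 2 * p), a j ℓ = ((pt nd j).filter fun v => v ∉ W).card
  le : ∀ j ℓ, a j ℓ ≤ K
  e1 : ∀ i < k, ty i → ∀ ℓ, a (2 * i) ℓ ≤ 1
  e2 : ∀ i < k, ty i → ∀ v ∈ W, nd v = 2 * i → a (2 * i) (lam v) = 0
  b1 : ∀ i < k, ¬ ty i → ∀ ℓ, a (2 * i) ℓ = 0 ∨ a (2 * i + 1) ℓ = 0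
  wl : ∀ j < 2 * k, (∃ v, nd v = j ∧ v ∉ W) → 8 * (W.filter fun v => nd v = j).card ≤ Δ
  cd : ∀ w ∈ pt nd (2 * k), ∀ j < 2 * k, 0 < a j (c0 w) →
    z ≤ 2 * ((pt nd j).filter fun v => v ∉ W ∧ ¬ G.Adj w v).card
  s1 : ∀ w ∈ pt nd (2 * k), ∀ j < 2 * k, a j (c0 w) ≤ 1
  t1 : ∀ j < 2 * k, ∀ m ≤ 6 * p + 2 * t, a j m ≤ 1

/-- Colours `cc` of the vertices that fit to `φ`, such that holes can be found. -/
structure Cp {V : Type} [Fintype V] (G : SimpleGraph V) (Δ p k : ℕ) (ty : ℕ → Prop)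
    (nd qt : V → ℕ) (t K : ℕ) (φ : ℕ → V → V) (cc : V → ℕ) : Prop where
  lt : ∀ v, cc v < Δ + 2 * p
  fr : ∀ v, ∀ ℓ ∈ BB p (Δ + 2 * p) (cc v), φ ℓ v = v
  pr : ∀ a b, G.Adj a b → cc a ≠ cc b
  t1 : ∀ v, nd v < 2 * k → qt v < 2 → ∀ ℓ ∈ BB p (Δ + 2 * p) (cc v), ¬ T1 p t ℓ
  t2 : ∀ v, nd v < 2 * k → 2 ≤ qt v → ∀ ℓ ∈ BB p (Δ + 2 * p) (cc v), ¬ T2 p t ℓ
  ct : ∀ j < 2 * k, ∀ ℓ < Δ + 2 * p, bw p (Δ + 2 * p) nd cc j ℓ ≤ K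
  ev : ∀ i < k, ty i → ((range (Δ + 2 * p)).filter fun ℓ =>
    ¬ Even ((pt nd (2 * i)).card + cv nd (φ ℓ) (2 * i) +
      bw p (Δ + 2 * p) nd cc (2 * i) ℓ)).card ≤ (pt nd (2 * i)).card
  ba : ∀ i < k, ¬ ty i → ∑ ℓ ∈ range (Δ + 2 * p),
    max 0 (gp p (Δ + 2 * p) nd φ cc i ℓ) ≤ ((pt nd (2 * i)).card : ℤ)
  bt : ∀ i < k, ¬ ty i → ∀ ℓ, (T1 p t ℓ ∨ T2 p t ℓ) → |gp p (Δ + 2 * p) nd φ cc i ℓ| ≤ 3
  cl : ∀ w ∈ pt nd (2 * k), p ≤ cc w ∧ cc w + p < Δ + 2 * p ∧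
    ∀ ℓ, cc w < ℓ + p → ℓ ≤ cc w + p → φ ℓ w = w

end Pool.Agent.H46.GP
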