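import Mathlib
import Pool.Agent.H46.GP.Defs

/-!
BBL: simple facts about the intervals `BB p L j` (see `GP/Defs.lean`), `1 ≤ p`, `2 p - 1 ≤ L`.

Proof.  `BB p L j = Ico m (m + (2 p - 1))` with `m = min (j - (p - 1)) (L - (2 p - 1))` (natural subtraction).
 `bb_card`: `Nat.card_Ico`. `bb_sub`: `m + (2 p - 1) ≤ L`. `bb_win`: if `j < ℓ + p`, `ℓ < j + p`, `ℓ < L` then `m ≤ ℓ < m + (2 p - 1)` (`omega` after `Nar.min` case distinction: `rcases le_total (j - (p - 1)) (L - (2 p - 1))`, `rw [min_eq_left ..]`).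
 `bb_mid`: for `p ≤ j + 1`, `j + p ≤ L` (`p - 1 ≤ j ≤ L - p`) `m = j - (p - 1)` and `ℓ ∈ BB p L j ↔ Nr p j ℓ`.
 `bb_num`: for `ℓ < L` the labels `j < L` with `ℓ ∈ BB p L j`: `m ≤ ℓ < m + (2 p - 1)`. If `m = j - (p - 1)` then `j ≤ ℓ + (p - 1)` and `ℓ < j + p` or (`j < p - 1` and `ℓ < 2 p - 1`); if `m = L - (2 p - 1) < j - (p - 1)` then `L - p < j < L`. So `j` lies in the union of `Ico (ℓ + 1 - p) (ℓ + p)` (`2 p - 1` elements),
 `range (p - 1)` and `Ico (L - p) L`: at most `4 p` labels.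
 `sw_sum`: `∑_{ℓ < L} sw p L a ℓ = ∑_{j < L} a j * #{ℓ < L : ℓ ∈ BB p L j}` (exchange the sums; `Finset.sum_filter`, `Finset.sum_comm`), and `{ℓ < L : ℓ ∈ BB p L j} = BB p L j` has `2 p - 1` elements.
 `sw_add`: clear. `bw_sw`: the vertices `v` with `nd v = j`, `ℓ ∈ BB p L (cc v)` are counted by their colour `cc v = m < L` (`Finset.card_eq_sum_card_fiberwise`).
 `zz_card`: `Z1 := {j < L : BB p L j meets T1}`. If `ℓ ∈ BB p L j`, `2 p ≤ ℓ < 2 p + t`, `4 p + t ≤ L`: then `m ≤ ℓ < m + (2 p - 1)`; so `0 < m` and `p ≤ j`. If `m = j - (p - 1)`: `j ≤ ℓ + p - 1 < 3 p + t - 1` and `ℓ < j + p`, so `p < j`. If `m = L - (2 p - 1) < j - (p - 1)`: `m ≤ ℓ < 2 p + t` against `4 p + t ≤ L`. So `p < j < 3 p + t`, at most `t + 2 p` labels.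
 Similarly for `T2` (`4 p + t ≤ ℓ < 4 p + 2 t`, `6 p + 2 t ≤ L`): `3 p + t < j < 5 p + 2 t`. (`zz1`, `zz2` state exactly this; the bounds `j < 3 p + t`, `3 p + t < j` show that the two sets are disjoint.)
-/

set_option autoImplicit false

namespace Pool.Agent.H46.GP

open Finset Classical
open Pool.Agent.H71.DN Pool.Agent.H71.DX Pool.Agent.H71.DR Pool.Agent.H71.HL Pool.Agent.H71.DC
open Pool.Agent.H71.TD Pool.Agent.H90.TDP Pool.Agent.H46.GA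

private theorem GpBbl_mem (p L j ℓ : ℕ) : ℓ ∈ BB p L j ↔
    min (j - (p - 1)) (L - (2 * p - 1)) ≤ ℓ ∧
      ℓ < min (j - (p - 1)) (L - (2 * p - 1)) + (2 * p - 1) := by
  unfold BB
  rw [mem_Ico]

theorem bb_card (p L j : ℕ) : (BB p L j).card = 2 * p - 1 := by
  unfold BB
  rw [Nat.card_Ico]
  omega

theorem bb_sub (p L j : ℕ) (hL : 2 * p - 1 ≤ L) : BB p L j ⊆ range L := by
  intro ℓ h
  rw [GpBbl_mem] at h
  rw [mem_range]
  have h1 := min_le_right (j - (p - 1)) (L - (2 * p - 1))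
  omega

theorem bb_win (p L j ℓ : ℕ) (hp : 1 ≤ p) (hL : 2 * p - 1 ≤ L) (hj : j < L) (hℓ : ℓ < L)
    (h : Nr p j ℓ) : ℓ ∈ BB p L j := by
  obtain ⟨h1, h2⟩ := h
  rw [GpBbl_mem]
  rcases le_total (j - (p - 1)) (L - (2 * p - 1)) with h3 | h3
  · rw [min_eq_left h3]
    omega
  · rw [min_eq_right h3]
    omega

theorem bb_mid (p L j ℓ : ℕ) (hp : 1 ≤ p) (h1 : p ≤ j + 1) (h2 : j + p ≤ L) :
    ℓ ∈ BB p L j ↔ Nr p j ℓ := by
  rw [GpBbl_mem, min_eq_left (by omega)]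
  unfold Nr
  omega

theorem bb_num (p L ℓ : ℕ) (hp : 1 ≤ p) (hL : 2 * p - 1 ≤ L) :
    ((range L).filter fun j => ℓ ∈ BB p L j).card ≤ 4 * p := by
  have hs : ((range L).filter fun j => ℓ ∈ BB p L j) ⊆
      (Ico (ℓ + 1 - p) (ℓ + p) ∪ range (p - 1)) ∪ Ico (L - p) L := by
    intro j hj
    rw [mem_filter, mem_range, GpBbl_mem] at hj
    rw [mem_union, mem_union, mem_Ico, mem_range, mem_Ico]
    obtain ⟨hjL, h1, h2⟩ := hj
    rcases le_total (j - (p - 1)) (L - (2 * p - 1)) with h3 | h3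
    · rw [min_eq_left h3] at h1 h2
      omega
    · rw [min_eq_right h3] at h1 h2
      omega
  have h1 := card_le_card hs
  have h2 := card_union_le (Ico (ℓ + 1 - p) (ℓ + p) ∪ range (p - 1)) (Ico (L - p) L)
  have h3 := card_union_le (Ico (ℓ + 1 - p) (ℓ + p)) (range (p - 1))
  rw [Nat.card_Ico, card_range] at h3
  rw [Nat.card_Ico] at h2
  omega

theorem sw_sum (p L : ℕ) (hL : 2 * p - 1 ≤ L) (a : ℕ → ℕ) :
    ∑ ℓ ∈ range L, sw p L a ℓ = (2 * p - 1) * ∑ j ∈ range L, a j := by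
  unfold sw
  have h1 : ∀ ℓ ∈ range L, ∑ j ∈ (range L).filter (fun j => ℓ ∈ BB p L j), a j =
      ∑ j ∈ range L, if ℓ ∈ BB p L j then a j else 0 := by
    intro ℓ _
    rw [sum_filter]
  rw [sum_congr rfl h1, sum_comm, mul_sum]
  refine sum_congr rfl fun j _ => ?_
  rw [← sum_filter, sum_const, smul_eq_mul]
  congr 1
  have h2 : (range L).filter (fun ℓ => ℓ ∈ BB p L j) = BB p L j := by
    ext ℓ
    rw [mem_filter]
    exact ⟨fun h => h.2, fun h => ⟨bb_sub p L j hL h, h⟩⟩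
  rw [h2, bb_card]

theorem sw_add (p L : ℕ) (a b : ℕ → ℕ) (ℓ : ℕ) :
    sw p L (fun j => a j + b j) ℓ = sw p L a ℓ + sw p L b ℓ := by
  unfold sw
  exact sum_add_distrib

theorem sw_le (p L : ℕ) (hp : 1 ≤ p) (hL : 2 * p - 1 ≤ L) (a : ℕ → ℕ) (K : ℕ)
    (ha : ∀ j, a j ≤ K) (ℓ : ℕ) : sw p L a ℓ ≤ 4 * p * K := by
  unfold sw
  refine (sum_le_card_nsmul _ _ K fun j _ => ha j).trans ?_
  rw [smul_eq_mul]
  exact Nat.mul_le_mul_right K (bb_num p L ℓ hp hL)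

theorem bw_sw {V : Type} [Fintype V] (p L : ℕ) (nd cc : V → ℕ) (hcc : ∀ v, cc v < L)
    (j ℓ : ℕ) : bw p L nd cc j ℓ = sw p L (fun m => ow nd cc j m) ℓ := by
  unfold bw sw ow
  have h1 : ∀ v ∈ (pt nd j).filter (fun v => ℓ ∈ BB p L (cc v)),
      cc v ∈ (range L).filter fun m => ℓ ∈ BB p L m := by
    intro v hv
    rw [mem_filter] at hv ⊢
    exact ⟨mem_range.2 (hcc v), hv.2⟩
  rw [card_eq_sum_card_fiberwise h1]
  refine sum_congr rfl fun m hm => ?_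
  rw [mem_filter] at hm
  congr 1
  ext v
  simp only [mem_filter]
  constructor
  · rintro ⟨⟨h2, _⟩, h4⟩
    exact ⟨h2, h4⟩
  · rintro ⟨h2, h4⟩
    refine ⟨⟨h2, ?_⟩, h4⟩
    rw [h4]
    exact hm.2

theorem zz1 (p L t j ℓ : ℕ) (hp : 1 ≤ p) (hL : 6 * p + 2 * t ≤ L) (h : ℓ ∈ BB p L j)
    (hT : T1 p t ℓ) : p < j ∧ j < 3 * p + t := by
  obtain ⟨h1, h2⟩ := hT
  rw [GpBbl_mem] at h
  rcases le_total (j - (p - 1)) (L - (2 * p - 1)) with h3 | h3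
  · rw [min_eq_left h3] at h
    omega
  · rw [min_eq_right h3] at h
    omega

theorem zz2 (p L t j ℓ : ℕ) (hp : 1 ≤ p) (hL : 6 * p + 2 * t ≤ L) (h : ℓ ∈ BB p L j)
    (hT : T2 p t ℓ) : 3 * p + t < j ∧ j < 5 * p + 2 * t := by
  obtain ⟨h1, h2⟩ := hT
  rw [GpBbl_mem] at h
  rcases le_total (j - (p - 1)) (L - (2 * p - 1)) with h3 | h3
  · rw [min_eq_left h3] at h
    omega
  · rw [min_eq_right h3] at h
    omega

end Pool.Agent.H46.GP
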