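import Mathlib
import Pool.Agent.H90.TDP.NmB
import Pool.Agent.H46.GP.Bbl

/-!
DBP: the numbers of colours in one nearly bipartite part, `p ≥ 2`. Use the STATEMENTS of `nmBp` (`Pool/Agent/H90/TDP/NmB.lean`) and of `GP/Bbl.lean`.

Proof.  `L := Δ + 2 p`, `s1 := 6 p + 2 t`, `n1 := (Δ + p - s1) / (2 p - 1)`, `h := #(pt nd (2 i)) = #(pt nd (2 i + 1))` (`hF.bal`). `s1 + (2 p - 1) n1 ≤ Δ + p = L - p`, and `2 (2 p - 1) n1 ≥ Δ` (`hΔ`). `h ≤ M Δ ≤ 2 M (2 p - 1) n1`, so `h + n1 ≤ K n1`, `0 < n1`.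
 `nmBp p s1 n1 h K` gives `al, be`; `bA := al`, `bB := be`. Sums: its last claim for `L`. `al, be` vanish at `c0 w` (`hF.c4`) and for `j ≤ s1`.
 If `al j ≠ 0` or `be j ≠ 0` then `s1 < j < s1 + (2 p - 1) n1 ≤ L - p`, so `ℓ ∈ BB p L j ↔ Nr p j ℓ` (`bb_mid`); hence for `ℓ < L`: `sw p L al ℓ - sw p L be ℓ = ∑_{j < L, Nr p j ℓ} (al j - be j)` (in `ℤ`; `Finset.sum_filter`, termwise).
 So `∑_{ℓ < L} |sw p L bA ℓ - sw p L bB ℓ| ≤ 3 K`. With `max 0 (y - x) ≤ |x - ...|`: `max 0 (sw bB - sw bA - uu) ≤ |sw bA - sw bB| + max 0 (- uu)`, and `5 ∑ max 0 (-uu) ≤ 4 Δ` (`hF.us`), so the sum is at most `3 K + (4/5) Δ ≤ h` by `10 h ≥ 9 Δ`, `30 K ≤ Δ`.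
 `ℓ ∈ T1` or `ℓ ∈ T2`: if `ℓ ∈ BB p L j` then `j < 5 p + 2 t ≤ s1` (`zz1`, `zz2`), so `bA j = bB j = 0` and `sw = 0`.
-/

set_option autoImplicit false

namespace Pool.Agent.H46.GP

open Finset Classical
open Pool.Agent.H71.DN Pool.Agent.H71.DX Pool.Agent.H71.DR Pool.Agent.H71.HL Pool.Agent.H71.DC
open Pool.Agent.H71.TD Pool.Agent.H90.TDP Pool.Agent.H46.GA

private theorem Dbp_num (p Δ t M K h n1 : ℕ) (hp : 2 ≤ p) (hn1 : n1 = (Δ + p - (6 * p + 2 * t)) / (2 * p - 1))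
    (hK : 4 * M * p + 1 ≤ K) (hΔ : 16 * p + 4 * t ≤ Δ) (hh : h ≤ M * Δ) :
    6 * p + 2 * t + (2 * p - 1) * n1 ≤ Δ + p ∧ 0 < n1 ∧ h + n1 ≤ K * n1 := by
  obtain ⟨m, hm⟩ : ∃ m : ℕ, m = 2 * p - 1 := ⟨_, rfl⟩
  obtain ⟨X, hX⟩ : ∃ X : ℕ, X = Δ + p - (6 * p + 2 * t) := ⟨_, rfl⟩
  rw [← hm, ← hX] at hn1
  rw [← hm]
  have h1 : m * n1 ≤ X := by
    rw [hn1]
    exact Nat.mul_div_le X m
  have h2 : X < m * n1 + m := by
    have := Nat.lt_mul_div_succ X (show 0 < m by omega)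
    rw [← hn1, Nat.mul_add, Nat.mul_one] at this
    exact this
  have h3 : Δ ≤ 2 * (m * n1) := by omega
  have h4 : 0 < n1 := by
    rcases Nat.eq_zero_or_pos n1 with h | h
    · rw [h, Nat.mul_zero] at h3
      omega
    · exact h
  refine ⟨by omega, h4, ?_⟩
  have h5 : M * Δ ≤ M * (2 * (m * n1)) := Nat.mul_le_mul_left _ h3
  have h6 : M * (2 * (m * n1)) ≤ M * (2 * ((2 * p) * n1)) :=
    Nat.mul_le_mul_left _ (Nat.mul_le_mul_left _ (Nat.mul_le_mul_right _ (by omega)))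
  have h7 : (4 * M * p + 1) * n1 ≤ K * n1 := Nat.mul_le_mul_right _ hK
  have h8 : (4 * M * p + 1) * n1 = M * (2 * ((2 * p) * n1)) + n1 := by ring
  omega

private theorem Dbp_diff (p L s1 n1 : ℕ) (hs : p ≤ s1) (hL : s1 + (2 * p - 1) * n1 + p ≤ L)
    (al be : ℕ → ℕ) (hz : ∀ j, (j ≤ s1 ∨ s1 + (2 * p - 1) * n1 ≤ j) → al j = 0 ∧ be j = 0) (ℓ : ℕ) :
    (sw p L al ℓ : ℤ) - sw p L be ℓ =
      ∑ j ∈ (range L).filter (fun j => Nr p j ℓ), ((al j : ℤ) - be j) := by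
  unfold sw
  rw [Nat.cast_sum, Nat.cast_sum, ← Finset.sum_sub_distrib, Finset.sum_filter, Finset.sum_filter]
  refine Finset.sum_congr rfl fun j _ => ?_
  by_cases h : j ≤ s1 ∨ s1 + (2 * p - 1) * n1 ≤ j
  · obtain ⟨h1, h2⟩ := hz j h
    rw [h1, h2]
    simp
  · have h3 := bb_mid p L j ℓ
    by_cases hp : 1 ≤ p
    · have h4 := h3 hp (by omega) (by omega)
      by_cases h5 : Nr p j ℓ
      · rw [if_pos (h4.2 h5), if_pos h5]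
      · rw [if_neg (fun h6 => h5 (h4.1 h6)), if_neg h5]
    · exfalso
      have hp0 : p = 0 := by omega
      subst hp0
      simp at h
      omega

private theorem Dbp_zero (p L t ℓ : ℕ) (hp : 1 ≤ p) (hL : 6 * p + 2 * t ≤ L)
    (al : ℕ → ℕ) (hz : ∀ j ≤ 6 * p + 2 * t, al j = 0) (hT : T1 p t ℓ ∨ T2 p t ℓ) :
    sw p L al ℓ = 0 := by
  unfold sw
  refine Finset.sum_eq_zero fun j hj => ?_
  rw [Finset.mem_filter] at hj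
  refine hz j ?_
  rcases hT with h | h
  · have := zz1 p L t j ℓ hp hL hj.2 h
    omega
  · have := zz2 p L t j ℓ hp hL hj.2 h
    omega

theorem dbp {V : Type} [Fintype V] (G : SimpleGraph V) (Δ p k : ℕ) (ty : ℕ → Prop)
    (nd qt : V → ℕ) (sf : ℕ → Finset V) (t : ℕ) (φ : ℕ → V → V) (c0 : V → ℕ) (d D r z e : ℕ)
    (hF : Fy G Δ p k ty nd qt sf t φ c0 d D r z e) (hp : 2 ≤ p) (M K : ℕ)
    (hM : Fintype.card V ≤ M * Δ) (hK : 4 * M * p + 1 ≤ K) (hΔ : 16 * p + 4 * t ≤ Δ)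
    (hKΔ : 30 * K ≤ Δ) (i : ℕ) (hi : i < k) (hty : ¬ ty i) :
    ∃ bA bB : ℕ → ℕ, (∀ j, bA j = 0 ∨ bB j = 0) ∧ (∀ j, bA j ≤ K ∧ bB j ≤ K) ∧
      ∑ j ∈ range (Δ + 2 * p), bA j = (pt nd (2 * i)).card ∧
      ∑ j ∈ range (Δ + 2 * p), bB j = (pt nd (2 * i + 1)).card ∧
      (∀ w ∈ pt nd (2 * k), bA (c0 w) = 0 ∧ bB (c0 w) = 0) ∧
      (∀ j ≤ 6 * p + 2 * t, bA j = 0 ∧ bB j = 0) ∧
      (∀ ℓ, (T1 p t ℓ ∨ T2 p t ℓ) →
        sw p (Δ + 2 * p) bA ℓ = 0 ∧ sw p (Δ + 2 * p) bB ℓ = 0) ∧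
      ∑ ℓ ∈ range (Δ + 2 * p), max 0 ((sw p (Δ + 2 * p) bB ℓ : ℤ) - sw p (Δ + 2 * p) bA ℓ -
        uu nd (φ ℓ) i) ≤ ((pt nd (2 * i)).card : ℤ) := by
  obtain ⟨h, hh⟩ : ∃ h : ℕ, h = (pt nd (2 * i)).card := ⟨_, rfl⟩
  have hbal := hF.bal i hi hty
  rw [← hbal, ← hh]
  have hbig := hF.big i hi
  rw [← hh] at hbig
  have hcV : h ≤ M * Δ := by
    rw [hh]
    exact (Finset.card_le_univ _).trans hM
  obtain ⟨n1, hn1⟩ : ∃ n1 : ℕ, n1 = (Δ + p - (6 * p + 2 * t)) / (2 * p - 1) := ⟨_, rfl⟩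
  obtain ⟨a1, a2, a3⟩ := Dbp_num p Δ t M K h n1 hp hn1 hK hΔ hcV
  obtain ⟨al, be, q1, q2, q3, q4, q5⟩ := nmBp p (6 * p + 2 * t) n1 h K hp (by omega) a2 a3
  obtain ⟨q6, q7, q8⟩ := q5 (Δ + 2 * p) (by omega)
  have hz : ∀ j ≤ 6 * p + 2 * t, al j = 0 ∧ be j = 0 := fun j hj => q3 j (Or.inl hj)
  refine ⟨al, be, q1, q2, q6, q7, ?_, hz, ?_, ?_⟩
  · intro w hw
    obtain ⟨b, hb⟩ := hF.c4 w hw
    rw [hb]
    exact q4 b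
  · intro ℓ hT
    exact ⟨Dbp_zero p _ t ℓ (by omega) (by omega) al (fun j hj => (hz j hj).1) hT,
      Dbp_zero p _ t ℓ (by omega) (by omega) be (fun j hj => (hz j hj).2) hT⟩
  · have hus := hF.us i hi hty
    have h1 : ∑ ℓ ∈ range (Δ + 2 * p), max 0 ((sw p (Δ + 2 * p) be ℓ : ℤ) -
        sw p (Δ + 2 * p) al ℓ - uu nd (φ ℓ) i) ≤
        ∑ ℓ ∈ range (Δ + 2 * p), (|∑ j ∈ (range (Δ + 2 * p)).filter (fun j => Nr p j ℓ),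
          ((al j : ℤ) - be j)| + max 0 (-uu nd (φ ℓ) i)) := by
      refine Finset.sum_le_sum fun ℓ _ => ?_
      rw [← Dbp_diff p (Δ + 2 * p) (6 * p + 2 * t) n1 (by omega) (by omega) al be q3 ℓ]
      have h2 := neg_abs_le ((sw p (Δ + 2 * p) al ℓ : ℤ) - sw p (Δ + 2 * p) be ℓ)
      have h3 := abs_nonneg ((sw p (Δ + 2 * p) al ℓ : ℤ) - sw p (Δ + 2 * p) be ℓ)
      omega
    rw [Finset.sum_add_distrib] at h1
    have h4 : (9 : ℤ) * Δ ≤ 10 * h := by exact_mod_cast hbig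
    have h5 : (30 : ℤ) * K ≤ Δ := by exact_mod_cast hKΔ
    refine h1.trans ?_
    omega

end Pool.Agent.H46.GP
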