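import Mathlib
import Pool.Agent.H90.TDP.NmE
import Pool.Agent.H46.GP.Bbl

/-!
DEP: the numbers of colours in one expanding part, `p ≥ 1` (compare `dme` in `Pool/Agent/H46/GA/Dme.lean`, proved). Use the STATEMENTS of `nmEp` (`Pool/Agent/H90/TDP/NmE.lean`) and of `GP/Bbl.lean`.

Proof.  `C := pt nd (2 i)`, `N := #C` (even, `hF.even`), `L := Δ + 2 p`.
 Case A: `C ⊆ W`, `L ≤ N`: `b := 0`; the number of odd labels is at most `L ≤ N`.
 Otherwise (second alternative of `hW.alt`) `8 #{v ∈ W : nd v = 2 i} ≤ z`, `Λ` with `#Λ = N - (L - 1)`, `lam v ∈ Λ` for `v ∈ W`, `nd v = 2 i`, `wn = 2` on `Λ`, `wn = 0` outside `Λ`; `#{v ∈ W : nd v = 2 i} = 2 #Λ`.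
 Case C: `L ≤ N`: `b j := if j < L ∧ j ∉ Λ ∧ j ≠ zi i then 1 else 0`; `∑ b = L - #Λ - 1`, `#(C \ W) = N - 2 #Λ`, equal since `#Λ = N - (L - 1)` (and `16 #Λ ≤ z ≤ Δ`). The number of odd labels is at most `L ≤ N`.
 Case B: `N + 1 ≤ L`: `Λ = ∅`, no vertex of `W` is in `C`, `wn = 0`. `m := L - N - 1`, `10 m ≤ Δ + 20 p` (`9 Δ ≤ 10 N`). `g0 := p` if `L ≤ 2 zi i`, `g0 := max p (zi i + 1)` otherwise; in both cases `p ≤ g0`, `g0 + 2 m + p ≤ L`, and `zi i < g0` or `g0 + 2 m ≤ zi i` (`hΔ`). Let
 `ext ℓ := #{j < L : j ≠ zi i, (j < g0 or g0 + 2 m ≤ j), ℓ ∈ BB p L j, ¬ Nr p j ℓ}`, `O := {ℓ < L : ¬ Even (N + cv nd (φ ℓ) (2 i) + ext ℓ)}`. `nmEp p L N (zi i) g0 O` gives `Λ'`; `b j := if j ∈ Λ' then 1 else 0`. For `ℓ < L`: `sw p L b ℓ = #{j ∈ Λ' : ℓ ∈ BB p L j} = #{j ∈ Λ' : Nr p j ℓ} + ext ℓ`: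
 `Nr p j ℓ` implies `ℓ ∈ BB p L j` (`bb_win`); a `j ∈ Λ'` with `ℓ ∈ BB p L j`, `¬ Nr p j ℓ` is outside `[g0, g0 + 2 m)` by `bb_mid`, and `j ≠ zi i`; conversely all `j < L`, `j ≠ zi i` outside `[g0, g0 + 2 m)` are in `Λ'`. So `N + cv + sw p L b ℓ` is odd iff `(if ℓ ∈ O then 1 else 0) + #{j ∈ Λ' : Nr p j ℓ}` is odd, and the number `o` of odd labels is at most `N + 1`.
 Finally `o` has the parity of `∑_{ℓ < L} (N + cv nd (φ ℓ) (2 i) + sw p L b ℓ) = L N + ∑ cv + (2 p - 1) N` (`sw_sum`, `∑ b = N`), which is even (`hF.sE`), and `N + 1` is odd, so `o ≤ N`.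
-/

set_option autoImplicit false

namespace Pool.Agent.H46.GP

open Finset Classical
open Pool.Agent.H71.DN Pool.Agent.H71.DX Pool.Agent.H71.DR Pool.Agent.H71.HL Pool.Agent.H71.DC
open Pool.Agent.H71.TD Pool.Agent.H90.TDP Pool.Agent.H46.GA

theorem dep {V : Type} [Fintype V] (G : SimpleGraph V) (Δ p k : ℕ) (ty : ℕ → Prop)
    (nd qt : V → ℕ) (sf : ℕ → Finset V) (t : ℕ) (φ : ℕ → V → V) (c0 : V → ℕ) (d D r z e : ℕ)
    (hF : Fy G Δ p k ty nd qt sf t φ c0 d D r z e) (zi : ℕ → ℕ) (s : ℕ) (W : Finset V)
    (lam : V → ℕ) (hW : Wp G Δ p k ty nd t φ c0 zi s z W lam) (hp : 1 ≤ p) (hz : z ≤ Δ)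
    (hΔ : 20 * p + 20 ≤ Δ) (i : ℕ) (hi : i < k) (hty : ty i) (hzi : zi i < Δ + 2 * p) :
    ∃ b : ℕ → ℕ, (∀ j, b j ≤ 1) ∧
      ∑ j ∈ range (Δ + 2 * p), b j = ((pt nd (2 * i)).filter fun v => v ∉ W).card ∧
      b (zi i) = 0 ∧ (∀ v ∈ W, nd v = 2 * i → b (lam v) = 0) ∧
      ((∃ v, nd v = 2 * i ∧ v ∉ W) → 8 * (W.filter fun v => nd v = 2 * i).card ≤ z) ∧
      ((range (Δ + 2 * p)).filter fun ℓ => ¬ Even ((pt nd (2 * i)).card +
        cv nd (φ ℓ) (2 * i) +
        sw p (Δ + 2 * p) (fun j => b j + wn nd W lam (2 * i) j) ℓ)).card ≤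
          (pt nd (2 * i)).card := by
  set C := pt nd (2 * i) with hC
  have hmC : ∀ v, v ∈ C ↔ nd v = 2 * i := by
    intro v
    rw [hC]
    simp [pt]
  set Wi := W.filter fun v => nd v = 2 * i with hWi
  have hCin : (C.filter fun v => v ∈ W) = Wi := by
    ext v
    rw [Finset.mem_filter, hmC, hWi, Finset.mem_filter]
    exact and_comm
  have hsplit : Wi.card + (C.filter fun v => v ∉ W).card = C.card := by
    rw [← hCin]
    exact Finset.card_filter_add_card_filter_not (s := C) (fun v => v ∈ W)
  have hevN : Even C.card := hF.even i hi hty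
  have hbig : 9 * Δ ≤ 10 * C.card := hF.big i hi
  rcases hW.alt i hi hty with ⟨hCW, hN⟩ | ⟨h8, Λ, hΛ, hzΛ, hΛc, hlam, hw2⟩
  · refine ⟨fun _ => 0, fun _ => Nat.zero_le _, ?_, rfl, fun _ _ _ => rfl, ?_, ?_⟩
    · rw [Finset.sum_const_zero]
      symm
      rw [Finset.card_eq_zero, Finset.filter_eq_empty_iff]
      intro v hv hvW
      exact hvW (hCW hv)
    · rintro ⟨v, hv, hvW⟩
      exact absurd (hCW ((hmC v).2 hv)) hvW
    · refine (Finset.card_filter_le _ _).trans ?_
      rw [Finset.card_range]
      exact hN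
  · by_cases hN : C.card + 1 ≤ Δ + 2 * p
    · have hΛ0 : Λ = ∅ := by
        rw [← Finset.card_eq_zero, hΛc]
        exact Nat.sub_eq_zero_of_le (show C.card ≤ Δ + 2 * p - 1 by omega)
      have hno : ∀ v ∈ W, nd v ≠ 2 * i := by
        intro v hv hnd
        have := hlam v hv hnd
        rw [hΛ0] at this
        exact absurd this (Finset.notMem_empty _)
      have hWi0 : Wi = ∅ := by
        rw [hWi, Finset.filter_eq_empty_iff]
        exact fun v hv => hno v hv
      have hwn : ∀ ℓ, wn nd W lam (2 * i) ℓ = 0 := by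
        intro ℓ
        rw [wn, Finset.card_eq_zero, Finset.filter_eq_empty_iff]
        intro v hv h
        exact hno v hv h.1
      obtain ⟨L, hL⟩ : ∃ L, L = Δ + 2 * p := ⟨_, rfl⟩
      rw [← hL] at hN hzi ⊢
      obtain ⟨m, hm⟩ : ∃ m, m = L - C.card - 1 := ⟨_, rfl⟩
      obtain ⟨g0, hg1, hg2, hg3⟩ : ∃ g0, p ≤ g0 ∧ g0 + 2 * m + p ≤ L ∧
          (zi i < g0 ∨ g0 + 2 * m ≤ zi i) := by
        by_cases h1 : L ≤ 2 * zi i
        · exact ⟨p, le_refl _, by omega, by omega⟩
        · rcases le_total p (zi i + 1) with h2 | h2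
          · exact ⟨zi i + 1, h2, by omega, by omega⟩
          · exact ⟨p, le_refl _, by omega, by omega⟩
      set X : ℕ → Finset ℕ := fun ℓ => (range L).filter fun j =>
        j ≠ zi i ∧ (j < g0 ∨ g0 + 2 * m ≤ j) ∧ ℓ ∈ BB p L j ∧ ¬ Nr p j ℓ with hX
      set O := (range L).filter fun ℓ => ¬ Even (C.card + cv nd (φ ℓ) (2 * i) + (X ℓ).card)
        with hO
      obtain ⟨M, hM1, hM2, hM3, hM4, hM5⟩ := nmEp p L C.card (zi i) g0 O hp hN hzi
        (by rw [← hm]; exact hg3) hg1 (by rw [← hm]; exact hg2)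
      rw [← hm] at hM4
      have hMc : ((range L).filter fun ℓ => ℓ ∈ M) = M := by
        ext ℓ
        rw [Finset.mem_filter]
        exact ⟨fun h => h.2, fun h => ⟨hM1 h, h⟩⟩
      have hsb : ∑ j ∈ range L, (if j ∈ M then 1 else 0) = C.card := by
        rw [Finset.sum_boole, hMc, hM3]
        rfl
      have hfun : (fun j => (if j ∈ M then 1 else 0) + wn nd W lam (2 * i) j) =
          fun j => if j ∈ M then 1 else 0 := by
        funext j
        rw [hwn, add_zero]
      have hsw : ∀ ℓ, sw p L (fun j => if j ∈ M then 1 else 0) ℓ =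
          (M.filter fun j => Nr p j ℓ).card + (X ℓ).card ∨ L ≤ ℓ := by
        intro ℓ
        by_cases hℓ : ℓ < L
        swap
        · right; omega
        left
        have h1 : sw p L (fun j => if j ∈ M then 1 else 0) ℓ =
            (M.filter fun j => ℓ ∈ BB p L j).card := by
          unfold sw
          rw [Finset.sum_boole, Finset.filter_filter]
          have h2 : ((range L).filter fun j => ℓ ∈ BB p L j ∧ j ∈ M) =
              M.filter fun j => ℓ ∈ BB p L j := by
            ext j
            rw [Finset.mem_filter, Finset.mem_filter]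
            exact ⟨fun h => ⟨h.2.2, h.2.1⟩, fun h => ⟨hM1 h.1, h.2, h.1⟩⟩
          rw [h2]
          rfl
        have h3 : (M.filter fun j => ℓ ∈ BB p L j) = (M.filter fun j => Nr p j ℓ) ∪ X ℓ := by
          ext j
          rw [Finset.mem_filter, Finset.mem_union, Finset.mem_filter, hX]
          dsimp only
          rw [Finset.mem_filter]
          constructor
          · rintro ⟨hj1, hj2⟩
            by_cases hj3 : Nr p j ℓ
            · left; exact ⟨hj1, hj3⟩
            · right
              have hjL : j < L := Finset.mem_range.1 (hM1 hj1)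
              refine ⟨hM1 hj1, ?_, ?_, hj2, hj3⟩
              · intro h
                rw [h] at hj1
                exact hM2 hj1
              · by_contra hc
                push Not at hc
                exact hj3 ((bb_mid p L j ℓ hp (by omega) (by omega)).1 hj2)
          · rintro (⟨hj1, hj2⟩ | ⟨hj1, hj2, hj3, hj4, -⟩)
            · exact ⟨hj1, bb_win p L j ℓ hp (by omega) (Finset.mem_range.1 (hM1 hj1)) hℓ hj2⟩
            · exact ⟨hM4 j (Finset.mem_range.1 hj1) hj2 hj3, hj4⟩
        have h4 : Disjoint (M.filter fun j => Nr p j ℓ) (X ℓ) := by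
          rw [Finset.disjoint_left]
          intro j hj1 hj2
          rw [Finset.mem_filter] at hj1
          rw [hX] at hj2
          dsimp only at hj2
          rw [Finset.mem_filter] at hj2
          exact hj2.2.2.2.2 hj1.2
        rw [h1, h3, Finset.card_union_of_disjoint h4]
      refine ⟨fun ℓ => if ℓ ∈ M then 1 else 0, ?_, ?_, ?_, ?_, ?_, ?_⟩
      · intro ℓ
        dsimp only
        split_ifs <;> omega
      · rw [hsb]
        rw [hWi0, Finset.card_empty, zero_add] at hsplit
        exact hsplit.symm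
      · exact if_neg hM2
      · intro v hv hnd
        exact absurd hnd (hno v hv)
      · intro _
        exact h8
      · dsimp only
        rw [hfun]
        have ho1 : ((range L).filter fun ℓ => ¬ Even (C.card + cv nd (φ ℓ) (2 * i) +
            sw p L (fun j => if j ∈ M then 1 else 0) ℓ)).card ≤ C.card + 1 := by
          refine (Finset.card_le_card ?_).trans hM5
          intro ℓ hℓ
          rw [Finset.mem_filter] at hℓ ⊢
          obtain ⟨hℓ1, hℓ2⟩ := hℓ
          refine ⟨hℓ1, ?_⟩
          have hℓL : ℓ < L := Finset.mem_range.1 hℓ1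
          rcases hsw ℓ with h1 | h1
          swap
          · omega
          rw [h1] at hℓ2
          by_cases hℓO : ℓ ∈ O
          · rw [if_pos hℓO]
            rw [hO, Finset.mem_filter] at hℓO
            intro hev
            apply hℓ2
            have h2 : Odd (C.card + cv nd (φ ℓ) (2 * i) + (X ℓ).card) :=
              Nat.not_even_iff_odd.1 hℓO.2
            have h3 : Odd (M.filter fun j => Nr p j ℓ).card := by
              rw [Nat.even_add] at hev
              rw [← Nat.not_even_iff_odd]
              intro h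
              exact absurd (hev.2 h) (by decide)
            have h4 : Even ((C.card + cv nd (φ ℓ) (2 * i) + (X ℓ).card) +
                (M.filter fun j => Nr p j ℓ).card) := h2.add_odd h3
            have h5 : C.card + cv nd (φ ℓ) (2 * i) + ((M.filter fun j => Nr p j ℓ).card +
                (X ℓ).card) = (C.card + cv nd (φ ℓ) (2 * i) + (X ℓ).card) +
                (M.filter fun j => Nr p j ℓ).card := by ring
            rw [h5]
            exact h4
          · rw [if_neg hℓO, zero_add]
            intro hev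
            apply hℓ2
            have h2 : Even (C.card + cv nd (φ ℓ) (2 * i) + (X ℓ).card) := by
              by_contra hc
              exact hℓO (by rw [hO, Finset.mem_filter]; exact ⟨hℓ1, hc⟩)
            have h5 : C.card + cv nd (φ ℓ) (2 * i) + ((M.filter fun j => Nr p j ℓ).card +
                (X ℓ).card) = (C.card + cv nd (φ ℓ) (2 * i) + (X ℓ).card) +
                (M.filter fun j => Nr p j ℓ).card := by ring
            rw [h5]
            exact h2.add hev
        have ho2 : Even ((range L).filter fun ℓ => ¬ Even (C.card + cv nd (φ ℓ) (2 * i) +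
            sw p L (fun j => if j ∈ M then 1 else 0) ℓ)).card := by
          have h1 : Even (∑ ℓ ∈ range L, (C.card + cv nd (φ ℓ) (2 * i) +
              sw p L (fun j => if j ∈ M then 1 else 0) ℓ)) := by
            rw [Finset.sum_add_distrib, Finset.sum_add_distrib, Finset.sum_const, smul_eq_mul,
              sw_sum p L (by omega), hsb]
            refine ((hevN.mul_left _).add ?_).add (hevN.mul_left _)
            rw [hL]
            exact hF.sE i hi hty
          rw [Finset.even_sum_iff_even_card_odd] at h1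
          have h2 : ((range L).filter fun ℓ => ¬ Even (C.card + cv nd (φ ℓ) (2 * i) +
              sw p L (fun j => if j ∈ M then 1 else 0) ℓ)) = (range L).filter fun ℓ =>
              Odd (C.card + cv nd (φ ℓ) (2 * i) +
                sw p L (fun j => if j ∈ M then 1 else 0) ℓ) := by
            apply Finset.filter_congr
            intro ℓ _
            exact Nat.not_even_iff_odd
          rw [h2]
          exact h1
        obtain ⟨a, ha⟩ := hevN
        obtain ⟨b, hb⟩ := ho2
        omega
    · have hN' : Δ + 2 * p ≤ C.card := by omega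
      have hWic : Wi.card = 2 * Λ.card := by
        have h1 : Wi.card = ∑ ℓ ∈ Λ, (Wi.filter fun v => lam v = ℓ).card := by
          apply Finset.card_eq_sum_card_fiberwise
          intro v hv
          have hv' : v ∈ W ∧ nd v = 2 * i := by
            have h2 : v ∈ Wi := hv
            rw [hWi, Finset.mem_filter] at h2
            exact h2
          exact hlam v hv'.1 hv'.2
        rw [h1]
        have h3 : ∀ ℓ ∈ Λ, (Wi.filter fun v => lam v = ℓ).card = 2 := by
          intro ℓ hℓ
          rw [← hw2 ℓ hℓ, wn, hWi, Finset.filter_filter]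
        rw [Finset.sum_congr rfl h3, Finset.sum_const, smul_eq_mul, mul_comm]
      set M := ((range (Δ + 2 * p)) \ Λ).erase (zi i) with hM
      have hMc : M.card + Λ.card + 1 = Δ + 2 * p := by
        have hz1 : zi i ∈ (range (Δ + 2 * p)) \ Λ :=
          Finset.mem_sdiff.2 ⟨Finset.mem_range.2 hzi, hzΛ⟩
        have h1 : M.card + 1 = ((range (Δ + 2 * p)) \ Λ).card :=
          Finset.card_erase_add_one hz1
        have h2 : ((range (Δ + 2 * p)) \ Λ).card + Λ.card = (range (Δ + 2 * p)).card :=
          Finset.card_sdiff_add_card_eq_card hΛ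
        rw [Finset.card_range] at h2
        omega
      refine ⟨fun ℓ => if ℓ ∈ M then 1 else 0, ?_, ?_, ?_, ?_, ?_, ?_⟩
      · intro ℓ
        dsimp only
        split_ifs <;> omega
      · rw [Finset.sum_boole]
        have h1 : ((range (Δ + 2 * p)).filter fun ℓ => ℓ ∈ M) = M := by
          ext ℓ
          rw [Finset.mem_filter]
          refine ⟨fun h => h.2, fun h => ⟨?_, h⟩⟩
          rw [hM, Finset.mem_erase, Finset.mem_sdiff] at h
          exact h.2.1
        rw [h1, Nat.cast_id]
        have hΛc' : Λ.card = C.card - (Δ + 2 * p - 1) := hΛc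
        have hgoal : M.card = (C.filter fun v => v ∉ W).card := by omega
        exact hgoal
      · apply if_neg
        rw [hM]
        exact Finset.notMem_erase _ _
      · intro v hv hnd
        apply if_neg
        rw [hM, Finset.mem_erase, Finset.mem_sdiff]
        intro h
        exact h.2.2 (hlam v hv hnd)
      · intro _
        exact h8
      · refine (Finset.card_filter_le _ _).trans ?_
        rw [Finset.card_range]
        exact hN'

end Pool.Agent.H46.GP
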