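import Mathlib
import Pool.Agent.H46.GP.Dep
import Pool.Agent.H46.GP.Dbp

/-!
DDP: the numbers of colours in all pieces, `p ≥ 2`. Adaptation of `dmd` (`Pool/Agent/H46/GA/Dmd.lean`, proved). Use the STATEMENTS of `dep` (`GP/Dep.lean`) and `dbp` (`GP/Dbp.lean`).

Proof.  Choose `b i` for `i < k`, `ty i`, by `dep`, and `bA i, bB i` for `i < k`, `¬ ty i`, by `dbp`. `a j ℓ := 0` for `2 k ≤ j`; for `j < 2 k`, `i := j / 2`: if `ty i`: `b i ℓ` for `j = 2 i`, `0` for `j = 2 i + 1`; if `¬ ty i`: `bA i ℓ` for `j = 2 i`, `bB i ℓ` for `j = 2 i + 1`.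
 For `¬ ty i` no vertex of `W` is in the pieces `2 i`, `2 i + 1` (`hW.sub`). For `ty i` the piece `2 i + 1` is empty (`hF.odd`).
 * `sum, le, e1, e2, b1, s1, t1` are immediate. `wl`: `8 # ≤ z ≤ Δ` for `j = 2 i`, `ty i`, otherwise the filter is empty (or there is no `v` with `nd v = j`).
 * `cd`: `w ∈ pt nd (2 k)`, `0 < a j (c0 w)`. `¬ ty i` is impossible. `ty i`: `j = 2 i`, `c0 w ≠ zi i` as `b i (zi i) = 0`, so `w ∉ sf i` by `hzi2`, so `z ≤ #{v ∈ C : ¬ Adj w v}` by `hF.nn`. There is `v ∈ C`, `v ∉ W` (otherwise `∑_{j < L} b i j = 0`, but `c0 w < L`, `0 < b i (c0 w)`), so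
   `8 #{v ∈ W : nd v = 2 i} ≤ z` and `#{v ∈ C : v ∉ W, ¬ Adj w v} ≥ z - z / 8 ≥ z / 2`.
 * The last claims are those of `dep` and `dbp`.
-/

set_option autoImplicit false

namespace Pool.Agent.H46.GP

open Finset Classical
open Pool.Agent.H71.DN Pool.Agent.H71.DX Pool.Agent.H71.DR Pool.Agent.H71.HL Pool.Agent.H71.DC
open Pool.Agent.H71.TD Pool.Agent.H90.TDP Pool.Agent.H46.GA

theorem ddp {V : Type} [Fintype V] (G : SimpleGraph V) (Δ p k : ℕ) (ty : ℕ → Prop)
    (nd qt : V → ℕ) (sf : ℕ → Finset V) (t : ℕ) (φ : ℕ → V → V) (c0 : V → ℕ) (d D r z e : ℕ)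
    (hF : Fy G Δ p k ty nd qt sf t φ c0 d D r z e) (zi : ℕ → ℕ) (s : ℕ) (W : Finset V)
    (lam : V → ℕ) (hW : Wp G Δ p k ty nd t φ c0 zi s z W lam) (hp : 2 ≤ p) (hz : z ≤ Δ)
    (hΔ : 20 * p + 4 * t + 20 ≤ Δ) (M K : ℕ)
    (hM : Fintype.card V ≤ M * Δ) (hK : 4 * M * p + 1 ≤ K)
    (hKΔ : 30 * K ≤ Δ) (hzi : ∀ i < k, zi i < Δ + 2 * p)
    (hzi2 : ∀ i < k, ty i → ∀ w ∈ pt nd (2 * k), w ∈ sf i → c0 w = zi i) :
    ∃ a : ℕ → ℕ → ℕ, Dp G Δ p k ty nd t c0 z K W lam a ∧
      (∀ i < k, ty i → ((range (Δ + 2 * p)).filter fun ℓ => ¬ Even ((pt nd (2 * i)).card +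
        cv nd (φ ℓ) (2 * i) +
        sw p (Δ + 2 * p) (fun j => a (2 * i) j + wn nd W lam (2 * i) j) ℓ)).card ≤
          (pt nd (2 * i)).card) ∧
      (∀ i < k, ¬ ty i → ∀ ℓ, (T1 p t ℓ ∨ T2 p t ℓ) →
        sw p (Δ + 2 * p) (a (2 * i)) ℓ = 0 ∧ sw p (Δ + 2 * p) (a (2 * i + 1)) ℓ = 0) ∧
      ∀ i < k, ¬ ty i → ∑ ℓ ∈ range (Δ + 2 * p),
        max 0 ((sw p (Δ + 2 * p) (a (2 * i + 1)) ℓ : ℤ) - sw p (Δ + 2 * p) (a (2 * i)) ℓ -
          uu nd (φ ℓ) i) ≤ ((pt nd (2 * i)).card : ℤ) := by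
  have hK1 : 1 ≤ K := by omega
  have hΔ1 : 20 * p + 20 ≤ Δ := by omega
  have hΔ2 : 16 * p + 4 * t ≤ Δ := by omega
  -- the numbers in the expanding parts
  have hE : ∀ i, ∃ b : ℕ → ℕ, i < k → ty i → ((∀ j, b j ≤ 1) ∧
      ∑ j ∈ range (Δ + 2 * p), b j = ((pt nd (2 * i)).filter fun v => v ∉ W).card ∧
      b (zi i) = 0 ∧ (∀ v ∈ W, nd v = 2 * i → b (lam v) = 0) ∧
      ((∃ v, nd v = 2 * i ∧ v ∉ W) → 8 * (W.filter fun v => nd v = 2 * i).card ≤ z) ∧
      ((range (Δ + 2 * p)).filter fun ℓ => ¬ Even ((pt nd (2 * i)).card +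
        cv nd (φ ℓ) (2 * i) +
        sw p (Δ + 2 * p) (fun j => b j + wn nd W lam (2 * i) j) ℓ)).card ≤
          (pt nd (2 * i)).card) := by
    intro i
    by_cases hi : i < k
    · by_cases ht : ty i
      · obtain ⟨b, hb⟩ := dep G Δ p k ty nd qt sf t φ c0 d D r z e hF zi s W lam hW (by omega) hz
          hΔ1 i hi ht (hzi i hi)
        exact ⟨b, fun _ _ => hb⟩
      · exact ⟨fun _ => 0, fun _ h => absurd h ht⟩
    · exact ⟨fun _ => 0, fun h => absurd h hi⟩
  choose b hb using hE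
  -- the numbers in the nearly bipartite parts
  have hB : ∀ i, ∃ bA bB : ℕ → ℕ, i < k → ¬ ty i → ((∀ j, bA j = 0 ∨ bB j = 0) ∧
      (∀ j, bA j ≤ K ∧ bB j ≤ K) ∧
      ∑ j ∈ range (Δ + 2 * p), bA j = (pt nd (2 * i)).card ∧
      ∑ j ∈ range (Δ + 2 * p), bB j = (pt nd (2 * i + 1)).card ∧
      (∀ w ∈ pt nd (2 * k), bA (c0 w) = 0 ∧ bB (c0 w) = 0) ∧
      (∀ j ≤ 6 * p + 2 * t, bA j = 0 ∧ bB j = 0) ∧
      (∀ ℓ, (T1 p t ℓ ∨ T2 p t ℓ) →
        sw p (Δ + 2 * p) bA ℓ = 0 ∧ sw p (Δ + 2 * p) bB ℓ = 0) ∧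
      ∑ ℓ ∈ range (Δ + 2 * p), max 0 ((sw p (Δ + 2 * p) bB ℓ : ℤ) - sw p (Δ + 2 * p) bA ℓ -
        uu nd (φ ℓ) i) ≤ ((pt nd (2 * i)).card : ℤ)) := by
    intro i
    by_cases hi : i < k
    · by_cases ht : ty i
      · exact ⟨fun _ => 0, fun _ => 0, fun _ h => absurd ht h⟩
      · obtain ⟨bA, bB, hb⟩ := dbp G Δ p k ty nd qt sf t φ c0 d D r z e hF hp M K hM hK hΔ2
          hKΔ i hi ht
        exact ⟨bA, bB, fun _ _ => hb⟩
    · exact ⟨fun _ => 0, fun _ => 0, fun h => absurd h hi⟩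
  choose bA bB hB using hB
  -- the numbers
  obtain ⟨a, hae, hao, haA, haB, hout⟩ : ∃ a : ℕ → ℕ → ℕ,
      (∀ i < k, ty i → ∀ ℓ, a (2 * i) ℓ = b i ℓ) ∧
      (∀ i < k, ty i → ∀ ℓ, a (2 * i + 1) ℓ = 0) ∧
      (∀ i < k, ¬ ty i → ∀ ℓ, a (2 * i) ℓ = bA i ℓ) ∧
      (∀ i < k, ¬ ty i → ∀ ℓ, a (2 * i + 1) ℓ = bB i ℓ) ∧
      (∀ j, 2 * k ≤ j → ∀ ℓ, a j ℓ = 0) := by
    refine ⟨fun j ℓ => if j < 2 * k then (if ty (j / 2) then
      (if j % 2 = 0 then b (j / 2) ℓ else 0) else
      (if j % 2 = 0 then bA (j / 2) ℓ else bB (j / 2) ℓ)) else 0, ?_, ?_, ?_, ?_, ?_⟩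
    · intro i hi ht ℓ
      have e1 : 2 * i < 2 * k := by omega
      have e2 : 2 * i / 2 = i := by omega
      have e3 : 2 * i % 2 = 0 := by omega
      simp only [if_pos e1, e2, if_pos ht, if_pos e3]
    · intro i hi ht ℓ
      have e1 : 2 * i + 1 < 2 * k := by omega
      have e2 : (2 * i + 1) / 2 = i := by omega
      have e3 : ¬ (2 * i + 1) % 2 = 0 := by omega
      simp only [if_pos e1, e2, if_pos ht, if_neg e3]
    · intro i hi ht ℓ
      have e1 : 2 * i < 2 * k := by omega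
      have e2 : 2 * i / 2 = i := by omega
      have e3 : 2 * i % 2 = 0 := by omega
      simp only [if_pos e1, e2, if_neg ht, if_pos e3]
    · intro i hi ht ℓ
      have e1 : 2 * i + 1 < 2 * k := by omega
      have e2 : (2 * i + 1) / 2 = i := by omega
      have e3 : ¬ (2 * i + 1) % 2 = 0 := by omega
      simp only [if_pos e1, e2, if_neg ht, if_neg e3]
    · intro j hj ℓ
      have e1 : ¬ j < 2 * k := by omega
      simp only [if_neg e1]
  have hcase : ∀ P : ℕ → Prop, (∀ i < k, P (2 * i)) → (∀ i < k, P (2 * i + 1)) →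
      ∀ j < 2 * k, P j := by
    intro P h1 h2 j hj
    rcases Nat.mod_two_eq_zero_or_one j with h3 | h3
    · have e1 : 2 * (j / 2) = j := by omega
      have e2 := h1 (j / 2) (by omega)
      rw [e1] at e2
      exact e2
    · have e1 : 2 * (j / 2) + 1 = j := by omega
      have e2 := h2 (j / 2) (by omega)
      rw [e1] at e2
      exact e2
  -- no vertex of W is in a nearly bipartite part
  have hWn : ∀ i < k, ¬ ty i → ∀ v, (nd v = 2 * i ∨ nd v = 2 * i + 1) → v ∉ W := by
    intro i hi ht v hv hw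
    have e1 := (hW.sub v hw).2
    have e2 : nd v / 2 = i := by omega
    rw [e2] at e1
    exact ht e1
  have hodd : ∀ i < k, ty i → ∀ v, nd v ≠ 2 * i + 1 := by
    intro i hi ht v hv
    have e1 : v ∈ pt nd (2 * i + 1) := by
      unfold pt
      rw [Finset.mem_filter]
      exact ⟨Finset.mem_univ v, hv⟩
    rw [hF.odd i hi ht] at e1
    exact absurd e1 (Finset.notMem_empty v)
  have hmp : ∀ j v, v ∈ pt nd j ↔ nd v = j := by
    intro j v
    unfold pt
    rw [Finset.mem_filter]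
    exact ⟨fun h => h.2, fun h => ⟨Finset.mem_univ v, h⟩⟩
  refine ⟨a, ⟨?_, ?_, ?_, ?_, ?_, ?_, ?_, ?_, ?_⟩, ?_, ?_, ?_⟩
  · -- sum
    apply hcase
    · intro i hi
      by_cases ht : ty i
      · simp only [hae i hi ht]
        exact (hb i hi ht).2.1
      · simp only [haA i hi ht]
        rw [(hB i hi ht).2.2.1, Finset.filter_true_of_mem]
        intro v hv
        exact hWn i hi ht v (Or.inl ((hmp _ v).1 hv))
    · intro i hi
      by_cases ht : ty i
      · simp only [hao i hi ht]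
        rw [hF.odd i hi ht, Finset.filter_empty, Finset.card_empty, Finset.sum_const_zero]
      · simp only [haB i hi ht]
        rw [(hB i hi ht).2.2.2.1, Finset.filter_true_of_mem]
        intro v hv
        exact hWn i hi ht v (Or.inr ((hmp _ v).1 hv))
  · -- le
    intro j ℓ
    by_cases hj : j < 2 * k
    · revert ℓ
      revert j
      intro j hj
      revert hj
      revert j
      apply hcase
      · intro i hi ℓ
        by_cases ht : ty i
        · rw [hae i hi ht]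
          have := (hb i hi ht).1 ℓ
          omega
        · rw [haA i hi ht]
          exact ((hB i hi ht).2.1 ℓ).1
      · intro i hi ℓ
        by_cases ht : ty i
        · rw [hao i hi ht]
          omega
        · rw [haB i hi ht]
          exact ((hB i hi ht).2.1 ℓ).2
    · rw [hout j (by omega)]
      omega
  · -- e1
    intro i hi ht ℓ
    rw [hae i hi ht]
    exact (hb i hi ht).1 ℓ
  · -- e2
    intro i hi ht v hv hn
    rw [hae i hi ht]
    exact (hb i hi ht).2.2.2.1 v hv hn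
  · -- b1
    intro i hi ht ℓ
    rw [haA i hi ht, haB i hi ht]
    exact (hB i hi ht).1 ℓ
  · -- wl
    apply hcase
    · intro i hi hv
      by_cases ht : ty i
      · exact ((hb i hi ht).2.2.2.2.1 hv).trans hz
      · rw [Finset.filter_false_of_mem]
        · rw [Finset.card_empty]
          omega
        · intro v hv2 hn
          exact hWn i hi ht v (Or.inl hn) hv2
    · intro i hi hv
      by_cases ht : ty i
      · obtain ⟨v, hv1, _⟩ := hv
        exact absurd hv1 (hodd i hi ht v)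
      · rw [Finset.filter_false_of_mem]
        · rw [Finset.card_empty]
          omega
        · intro v hv2 hn
          exact hWn i hi ht v (Or.inr hn) hv2
  · -- cd
    intro w hw
    apply hcase
    · intro i hi h0
      by_cases ht : ty i
      · rw [hae i hi ht] at h0
        obtain ⟨b1, b2, b3, b4, b5, b6⟩ := hb i hi ht
        have hwn : w ∉ sf i := by
          intro h1
          rw [hzi2 i hi ht w hw h1, b3] at h0
          omega
        have hnn := hF.nn i hi ht w hw hwn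
        have hex : ∃ v, nd v = 2 * i ∧ v ∉ W := by
          by_contra hcon
          push Not at hcon
          have e1 : ((pt nd (2 * i)).filter fun v => v ∉ W).card = 0 := by
            rw [Finset.card_eq_zero, Finset.filter_eq_empty_iff]
            intro v hv hvw
            exact hvw (hcon v ((hmp _ v).1 hv))
          rw [e1] at b2
          have e2 := (Finset.sum_eq_zero_iff.1 b2) (c0 w)
            (Finset.mem_range.2 (by have := (hF.c1 w hw).2; omega))
          omega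
        have h8 := b5 hex
        have hsub : ((pt nd (2 * i)).filter fun v => ¬ G.Adj w v) ⊆
            ((pt nd (2 * i)).filter fun v => v ∉ W ∧ ¬ G.Adj w v) ∪
              (W.filter fun v => nd v = 2 * i) := by
          intro v hv
          rw [Finset.mem_filter] at hv
          rw [Finset.mem_union, Finset.mem_filter, Finset.mem_filter]
          by_cases hvw : v ∈ W
          · exact Or.inr ⟨hvw, (hmp _ v).1 hv.1⟩
          · exact Or.inl ⟨hv.1, hvw, hv.2⟩
        have hc := (Finset.card_le_card hsub).trans (Finset.card_union_le _ _)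
        omega
      · rw [haA i hi ht, ((hB i hi ht).2.2.2.2.1 w hw).1] at h0
        omega
    · intro i hi h0
      by_cases ht : ty i
      · rw [hao i hi ht] at h0
        omega
      · rw [haB i hi ht, ((hB i hi ht).2.2.2.2.1 w hw).2] at h0
        omega
  · -- s1
    intro w hw
    apply hcase
    · intro i hi
      by_cases ht : ty i
      · rw [hae i hi ht]
        exact (hb i hi ht).1 (c0 w)
      · rw [haA i hi ht, ((hB i hi ht).2.2.2.2.1 w hw).1]
        omega
    · intro i hi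
      by_cases ht : ty i
      · rw [hao i hi ht]
        omega
      · rw [haB i hi ht, ((hB i hi ht).2.2.2.2.1 w hw).2]
        omega
  · -- t1
    apply hcase
    · intro i hi m hm
      by_cases ht : ty i
      · rw [hae i hi ht]
        exact (hb i hi ht).1 m
      · rw [haA i hi ht, ((hB i hi ht).2.2.2.2.2.1 m hm).1]
        omega
    · intro i hi m hm
      by_cases ht : ty i
      · rw [hao i hi ht]
        omega
      · rw [haB i hi ht, ((hB i hi ht).2.2.2.2.2.1 m hm).2]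
        omega
  · intro i hi ht
    have e1 : (fun j => a (2 * i) j + wn nd W lam (2 * i) j) =
        fun j => b i j + wn nd W lam (2 * i) j := by
      funext j
      rw [hae i hi ht]
    rw [e1]
    exact (hb i hi ht).2.2.2.2.2
  · intro i hi ht ℓ hℓ
    have e1 : a (2 * i) = bA i := funext (haA i hi ht)
    have e2 : a (2 * i + 1) = bB i := funext (haB i hi ht)
    rw [e1, e2]
    exact (hB i hi ht).2.2.2.2.2.2.1 ℓ hℓ
  · intro i hi ht
    have e1 : a (2 * i) = bA i := funext (haA i hi ht)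
    have e2 : a (2 * i + 1) = bB i := funext (haB i hi ht)
    rw [e1, e2]
    exact (hB i hi ht).2.2.2.2.2.2.2

end Pool.Agent.H46.GP
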