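import Mathlib
import Pool.Agent.H46.GP.Cl3
import Pool.Agent.H46.GP.Bbl

/-!
SBP: the labels of the remaining vertices, `p ≥ 1`. Adaptation of `stb` (`Pool/Agent/H46/GA/Stb.lean`, proved). Use the STATEMENTS of `cl3` (`GP/Cl3.lean`) and of `GP/Bbl.lean`.

Proof.  As for `stb`, with `L := Δ + 2 p`, `Z1 := {j < L : BB p L j contains a label of T1}`, `Z2 := {j < L : BB p L j contains a label of T2}` (disjoint, at most `t + 2 p` elements each, all `< 5 p + 2 t`, by `zz1, zz2`; special labels `c0 w ≥ 6 p + 2 t` are not in `Z1, Z2`), and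
 `forb j := {v : j is not special and (φ ℓ v ≠ v for some ℓ ∈ BB p L j, or there is u ∈ W with F.Adj u v and lam u = j)}` for `U := {v // nd v < 2 k ∧ v ∉ W ∧ v ∉ T}`, `cl3` with `S := K`, `d`, `f := 5 p d`, `g := 2 p D + 2 k s d`.
 * `hf`: the labels `ℓ < L` with `φ ℓ v ≠ v` are `dg F v ≤ d` many (`hF.cnt`), each is in `BB p L j` for at most `4 p` labels `j < L` (`bb_num`; `BB ⊆ range L`), and at most `dg F v ≤ d` labels are `lam u` of a neighbour: `4 p d + d ≤ 5 p d`. `hg`: `(2 p - 1) D` (`bb_card`, `hF.sm`), and the vertices of `W` with `lam u = j` are at most `2 k s`, each with at most `d` neighbours.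
 * `hsum`: as for `stb`. `hX`: if the pool is empty the sum is `0` by `hsum`. Otherwise the pool with `x` has at least `Δ / 4 - Δ / 8 - 2 k r` elements (`hF.half`, `hA.wl`, `hT2`), and the sum over `Z2` is at most `t + 2 p` (`hA.t1`), `hn2`. `hY` the same. `hbig`: `K (5 p d + d) + 2 p D + 2 k s d + 4 k K d` and `hn1` (`5 p + 1 ≤ 6 p`).
 * the remaining claims as for `stb`. The labels are not special (numbers `0` there), so `v ∉ forb (c v)` gives `φ ℓ v = v` for `ℓ ∈ BB p L (c1 v)`. `c v ∉ Z1` for `qt v < 2`: no label of `BB p L (c1 v)` is in `T1`.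
-/

set_option autoImplicit false

namespace Pool.Agent.H46.GP

open Finset Classical
open Pool.Agent.H71.DN Pool.Agent.H71.DX Pool.Agent.H71.DR Pool.Agent.H71.HL Pool.Agent.H71.DC
open Pool.Agent.H71.TD Pool.Agent.H90.TDP Pool.Agent.H46.GA

/-- The number of points with `p`. -/
private noncomputable def sbp_c {V : Type} [Fintype V] (p : V → Prop) : ℕ :=
  (@Finset.filter V p (fun _ => Classical.propDecidable _) univ).card

private theorem sbp_mf {V : Type} {p : V → Prop} {i : DecidablePred p} {s : Finset V} {a : V} :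
    a ∈ @Finset.filter V p i s ↔ a ∈ s ∧ p a := @Finset.mem_filter V p i s a

private theorem sbp_0 {V : Type} [Fintype V] {p : V → Prop} (h : ∀ v, ¬ p v) : sbp_c p = 0 := by
  unfold sbp_c
  rw [Finset.card_eq_zero]
  apply Finset.eq_empty_of_forall_notMem
  intro v hv
  exact h v (sbp_mf.1 hv).2

private theorem sbp_pos {V : Type} [Fintype V] {p : V → Prop} (v : V) (h : p v) :
    0 < sbp_c p := by
  unfold sbp_c
  exact Finset.card_pos.2 ⟨v, sbp_mf.2 ⟨mem_univ _, h⟩⟩

private theorem sbp_one {V : Type} [Fintype V] {p : V → Prop} (h : sbp_c p ≤ 1) {u v : V}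
    (hu : p u) (hv : p v) : u = v := by
  unfold sbp_c at h
  exact Finset.card_le_one.1 h u (sbp_mf.2 ⟨mem_univ _, hu⟩) v (sbp_mf.2 ⟨mem_univ _, hv⟩)

private theorem sbp_e {V : Type} [Fintype V] {p q : V → Prop} {i1 : DecidablePred p}
    (h : ∀ v, p v ↔ q v) : (@Finset.filter V p i1 univ).card = sbp_c q := by
  unfold sbp_c
  apply congrArg Finset.card
  ext v
  rw [Finset.mem_filter, Finset.mem_filter, h v]

private theorem sbp_tr {V : Type} [Fintype V] {P : V → Prop} {i0 : Fintype {v // P v}}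
    {q : {v // P v} → Prop} {r : V → Prop} {i1 : DecidablePred q}
    (h1 : ∀ v : {v // P v}, q v ↔ r v.1) (h2 : ∀ v, r v → P v) :
    (@Finset.filter _ q i1 univ).card = sbp_c r := by
  unfold sbp_c
  rw [← Finset.card_map (Function.Embedding.subtype P)]
  apply congrArg Finset.card
  ext v
  rw [mem_map, mem_filter]
  constructor
  · rintro ⟨w, hw, rfl⟩
    rw [mem_filter] at hw
    exact ⟨mem_univ _, (h1 w).1 hw.2⟩
  · rintro ⟨_, hv⟩
    exact ⟨⟨v, h2 v hv⟩, by rw [mem_filter]; exact ⟨mem_univ _, (h1 _).2 hv⟩, rfl⟩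

private theorem sbp_le {V : Type} [Fintype V] {p q : V → Prop}
    (h : ∀ v, p v → q v) : sbp_c p ≤ sbp_c q := by
  unfold sbp_c
  apply Finset.card_le_card
  intro v hv
  rw [Finset.mem_filter] at hv ⊢
  exact ⟨hv.1, h v hv.2⟩

private theorem sbp_sub {V : Type} [Fintype V] {p : V → Prop} {A : Finset V}
    (h : ∀ v, p v → v ∈ A) : sbp_c p ≤ A.card := by
  unfold sbp_c
  apply Finset.card_le_card
  intro v hv
  rw [Finset.mem_filter] at hv
  exact h v hv.2

theorem sbp {V : Type} [Fintype V] (G : SimpleGraph V) (Δ p k : ℕ) (ty : ℕ → Prop)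
    (nd qt : V → ℕ) (sf : ℕ → Finset V) (t : ℕ) (φ : ℕ → V → V) (c0 : V → ℕ) (d D r z e : ℕ)
    (hF : Fy G Δ p k ty nd qt sf t φ c0 d D r z e) (hp : 1 ≤ p) (zi : ℕ → ℕ) (s K : ℕ)
    (W : Finset V) (lam : V → ℕ) (hW : Wp G Δ p k ty nd t φ c0 zi s z W lam)
    (a : ℕ → ℕ → ℕ) (hA : Dp G Δ p k ty nd t c0 z K W lam a)
    (hn1 : 8 * (6 * K * p * d + 2 * p * D + 2 * k * s * d + 4 * k * K * d + 2 * k * r) < Δ)
    (hn2 : 8 * (t + 2 * p + 2 * k * r) ≤ Δ)
    (T : Finset V) (lb : V → V) (hT1 : ∀ v ∈ T, nd v < 2 * k ∧ v ∉ W)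
    (hT2 : T.card ≤ 2 * k * r)
    (hT3 : ∀ v ∈ T, lb v ∈ pt nd (2 * k))
    (hT4 : ∀ w ∈ pt nd (2 * k), ∀ j < 2 * k,
      (T.filter fun v => nd v = j ∧ lb v = w).card = a j (c0 w)) :
    ∃ c1 : V → ℕ,
      (∀ v, nd v < 2 * k → v ∉ W → v ∉ T → c1 v < Δ + 2 * p ∧
        (∀ w ∈ pt nd (2 * k), c1 v ≠ c0 w) ∧
        (∀ ℓ ∈ BB p (Δ + 2 * p) (c1 v), φ ℓ v = v) ∧
        (∀ u ∈ W, G.Adj u v → lam u ≠ c1 v) ∧
        (qt v < 2 → ∀ ℓ ∈ BB p (Δ + 2 * p) (c1 v), ¬ T1 p t ℓ) ∧
        (¬ qt v < 2 → ∀ ℓ ∈ BB p (Δ + 2 * p) (c1 v), ¬ T2 p t ℓ)) ∧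
      (∀ u v, nd u < 2 * k → u ∉ W → u ∉ T → nd v < 2 * k → v ∉ W → v ∉ T → G.Adj u v →
        c1 u ≠ c1 v) ∧
      ∀ j < 2 * k, ∀ ℓ < Δ + 2 * p, (∀ w ∈ pt nd (2 * k), ℓ ≠ c0 w) →
        (univ.filter fun v => nd v = j ∧ v ∉ W ∧ v ∉ T ∧ c1 v = ℓ).card = a j ℓ := by
  set F := Fg G k ty nd with hFdef
  set P : V → Prop := fun v => nd v < 2 * k ∧ v ∉ W ∧ v ∉ T with hP
  set sp : ℕ → Prop := fun ℓ => ∃ w ∈ pt nd (2 * k), ℓ = c0 w with hsp
  have hL6 : 6 * p + 2 * t ≤ Δ + 2 * p := by omega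
  have hL1 : 2 * p - 1 ≤ Δ + 2 * p := by omega
  -- the sizes of the pools
  have hTW : ∀ v ∈ T, v ∉ W := fun v hv => (hT1 v hv).2
  have hsumT : ∀ j < 2 * k, ∑ w ∈ pt nd (2 * k), a j (c0 w) =
      (T.filter fun v => nd v = j).card := by
    intro j hj
    have h1 : (T.filter fun v => nd v = j).card =
        ∑ w ∈ pt nd (2 * k), ((T.filter fun v => nd v = j).filter fun v => lb v = w).card := by
      apply Finset.card_eq_sum_card_fiberwise
      intro v hv
      have hv' := Finset.mem_coe.1 hv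
      rw [mem_filter] at hv'
      exact Finset.mem_coe.2 (hT3 v hv'.1)
    rw [h1]
    apply Finset.sum_congr rfl
    intro w hw
    rw [← hT4 w hw j hj, filter_filter]
  have hsumS : ∀ j < 2 * k, ∑ ℓ ∈ range (Δ + 2 * p), (if sp ℓ then a j ℓ else 0) =
      (T.filter fun v => nd v = j).card := by
    intro j hj
    rw [← hsumT j hj, ← Finset.sum_filter]
    have h1 : (range (Δ + 2 * p)).filter sp = (pt nd (2 * k)).image c0 := by
      ext ℓ
      rw [mem_filter, mem_image, mem_range]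
      constructor
      · rintro ⟨_, w, hw, rfl⟩
        exact ⟨w, hw, rfl⟩
      · rintro ⟨w, hw, rfl⟩
        exact ⟨by have := (hF.c1 w hw).2; omega, w, hw, rfl⟩
    rw [h1, Finset.sum_image]
    intro w hw w' hw' h
    exact hF.c2 w (Finset.mem_coe.1 hw) w' (Finset.mem_coe.1 hw') h
  have hsumN : ∀ j < 2 * k, ∑ ℓ ∈ range (Δ + 2 * p), (if sp ℓ then 0 else a j ℓ) =
      sbp_c fun v => nd v = j ∧ v ∉ W ∧ v ∉ T := by
    intro j hj
    have h1 : ∑ ℓ ∈ range (Δ + 2 * p), (if sp ℓ then 0 else a j ℓ) +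
        ∑ ℓ ∈ range (Δ + 2 * p), (if sp ℓ then a j ℓ else 0) = ∑ ℓ ∈ range (Δ + 2 * p), a j ℓ := by
      rw [← Finset.sum_add_distrib]
      apply Finset.sum_congr rfl
      intro ℓ _
      by_cases h : sp ℓ
      · rw [if_pos h, if_pos h, zero_add]
      · rw [if_neg h, if_neg h, add_zero]
    have h2 : ((pt nd j).filter fun v => v ∉ W).card =
        (sbp_c fun v => nd v = j ∧ v ∉ W ∧ v ∉ T) +
        (T.filter fun v => nd v = j).card := by
      rw [← sbp_e (p := fun v => nd v = j ∧ v ∉ W ∧ v ∉ T)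
        (i1 := fun _ => Classical.propDecidable _) (fun v => Iff.rfl)]
      rw [← Finset.card_filter_add_card_filter_not (s := (pt nd j).filter fun v => v ∉ W)
        (fun v => v ∉ T)]
      have h3 : ((pt nd j).filter fun v => v ∉ W).filter (fun v => v ∉ T) =
          @Finset.filter V (fun v => nd v = j ∧ v ∉ W ∧ v ∉ T)
            (fun _ => Classical.propDecidable _) univ := by
        ext v
        simp only [pt, mem_filter, mem_univ, true_and]
        tauto
      have h4 : ((pt nd j).filter fun v => v ∉ W).filter (fun v => ¬ v ∉ T) =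
          T.filter fun v => nd v = j := by
        ext v
        simp only [pt, mem_filter, mem_univ, true_and, not_not]
        constructor
        · rintro ⟨⟨h5, _⟩, h6⟩
          exact ⟨h6, h5⟩
        · rintro ⟨h5, h6⟩
          exact ⟨⟨h6, hTW v h5⟩, h5⟩
      rw [h3, h4]
    rw [hA.sum j hj, h2, hsumS j hj] at h1
    exact Nat.add_right_cancel h1
  -- large pools
  have hlarge : ∀ v0, nd v0 < 2 * k → v0 ∉ W → ∀ y : V → Prop,
      (Δ ≤ 4 * sbp_c fun u => nd u = nd v0 ∧ y u) →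
      Δ ≤ 8 * (sbp_c fun u => nd u = nd v0 ∧ u ∉ W ∧ u ∉ T ∧ y u) + 16 * k * r := by
    intro v0 hv0 hvW y hy
    have h1 := hA.wl (nd v0) hv0 ⟨v0, rfl, hvW⟩
    have h2 : (sbp_c fun u => nd u = nd v0 ∧ y u) ≤
        (sbp_c fun u => nd u = nd v0 ∧ u ∉ W ∧ u ∉ T ∧ y u) +
        (W.filter fun v => nd v = nd v0).card + T.card := by
      have h3 : (sbp_c fun u => nd u = nd v0 ∧ y u) ≤
          (((@Finset.filter V (fun u => nd u = nd v0 ∧ u ∉ W ∧ u ∉ T ∧ y u)
            (fun _ => Classical.propDecidable _) univ) ∪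
          (W.filter fun v => nd v = nd v0)) ∪ T).card := by
        apply sbp_sub
        intro u hu
        rw [mem_union, mem_union, sbp_mf, sbp_mf]
        by_cases hT : u ∈ T
        · exact Or.inr hT
        · left
          by_cases hW' : u ∈ W
          · exact Or.inr ⟨hW', hu.1⟩
          · exact Or.inl ⟨mem_univ _, hu.1, hW', hT, hu.2⟩
      calc _ ≤ _ := h3
        _ ≤ _ := Finset.card_union_le _ _
        _ ≤ _ := Nat.add_le_add_right (Finset.card_union_le _ _) _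
    have h4 : 16 * k * r = 8 * (2 * k * r) := by ring
    omega
  have hhalf : ∀ v0, nd v0 < 2 * k → v0 ∉ W →
      Δ ≤ 8 * (sbp_c fun u => nd u = nd v0 ∧ u ∉ W ∧ u ∉ T ∧ qt u < 2) +
        16 * k * r ∧
      Δ ≤ 8 * (sbp_c fun u => nd u = nd v0 ∧ u ∉ W ∧ u ∉ T ∧ ¬ qt u < 2) +
        16 * k * r := by
    intro v0 h1 h2
    have h3 := hF.half v0 h1
    rw [sbp_e (q := fun u => nd u = nd v0 ∧ qt u < 2) (fun _ => Iff.rfl),
      sbp_e (q := fun u => nd u = nd v0 ∧ ¬ qt u < 2) (fun _ => Iff.rfl)] at h3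
    exact ⟨hlarge v0 h1 h2 (fun u => qt u < 2) h3.1,
      hlarge v0 h1 h2 (fun u => ¬ qt u < 2) h3.2⟩
  have hkr : 16 * k * r = 8 * (2 * k * r) := by ring
  have hPi : ∀ v : {v // P v}, nd v.1 < 2 * k := fun v => v.2.1
  obtain ⟨Z1, hZ1⟩ : ∃ Z1 : Finset ℕ, ∀ j, j ∈ Z1 ↔ j ∈ range (Δ + 2 * p) ∧
      ∃ ℓ ∈ BB p (Δ + 2 * p) j, T1 p t ℓ := ⟨_, fun _ => sbp_mf (i := fun _ => Classical.propDecidable _)⟩
  obtain ⟨Z2, hZ2⟩ : ∃ Z2 : Finset ℕ, ∀ j, j ∈ Z2 ↔ j ∈ range (Δ + 2 * p) ∧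
      ∃ ℓ ∈ BB p (Δ + 2 * p) j, T2 p t ℓ := ⟨_, fun _ => sbp_mf (i := fun _ => Classical.propDecidable _)⟩
  have hs1 : Z1 ⊆ range (Δ + 2 * p) := fun j hj => ((hZ1 j).1 hj).1
  have hs2 : Z2 ⊆ range (Δ + 2 * p) := fun j hj => ((hZ2 j).1 hj).1
  have hm1 : ∀ j ∈ Z1, p < j ∧ j < 3 * p + t := by
    intro j hj
    rw [hZ1] at hj
    obtain ⟨_, ℓ, h1, h2⟩ := hj
    exact zz1 p (Δ + 2 * p) t j ℓ hp hL6 h1 h2
  have hm2 : ∀ j ∈ Z2, 3 * p + t < j ∧ j < 5 * p + 2 * t := by
    intro j hj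
    rw [hZ2] at hj
    obtain ⟨_, ℓ, h1, h2⟩ := hj
    exact zz2 p (Δ + 2 * p) t j ℓ hp hL6 h1 h2
  have hcZ1 : Z1.card ≤ t + 2 * p := by
    refine le_trans (Finset.card_le_card (t := Ico (p + 1) (3 * p + t)) ?_) ?_
    · intro j hj
      have := hm1 j hj
      rw [mem_Ico]
      omega
    · rw [Nat.card_Ico]
      omega
  have hcZ2 : Z2.card ≤ t + 2 * p := by
    refine le_trans (Finset.card_le_card (t := Ico (3 * p + t + 1) (5 * p + 2 * t)) ?_) ?_
    · intro j hj
      have := hm2 j hj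
      rw [mem_Ico]
      omega
    · rw [Nat.card_Ico]
      omega
  have hsumZ : ∀ Z : Finset ℕ, (∀ j ∈ Z, j < 5 * p + 2 * t) → Z.card ≤ t + 2 * p → ∀ i < 2 * k,
      ∑ ℓ ∈ Z, (if sp ℓ then 0 else a i ℓ) ≤ t + 2 * p := by
    intro Z h1 h2 i hi
    refine le_trans (Finset.sum_le_card_nsmul Z _ 1 ?_) ?_
    · intro ℓ hℓ
      by_cases h : sp ℓ
      · rw [if_pos h]
        exact Nat.zero_le _
      · rw [if_neg h]
        have := h1 ℓ hℓ
        exact hA.t1 i hi ℓ (by omega)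
    · rw [smul_eq_mul, mul_one]
      exact h2
  obtain ⟨c, hc1, hc2, hc3, hc4, hc5, hc6⟩ := cl3 (V := {v // P v}) (ι := Fin (2 * k))
    (F.comap (fun v => v.1)) (Δ + 2 * p) Z1 Z2 hs1 hs2
    (by
      rw [Finset.disjoint_left]
      intro j h1 h2
      have h3 := hm1 j h1
      have h4 := hm2 j h2
      omega)
    (fun v => ⟨nd v.1, hPi v⟩) (fun v => qt v.1 < 2)
    (fun ℓ => univ.filter fun v : {v // P v} => ¬ sp ℓ ∧
      ((∃ m ∈ BB p (Δ + 2 * p) ℓ, φ m v.1 ≠ v.1) ∨ ∃ u ∈ W, F.Adj u v.1 ∧ lam u = ℓ))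
    (fun j ℓ => if sp ℓ then 0 else a j ℓ) K d (5 * p * d) (2 * p * D + 2 * k * s * d)
    (by
      intro i ℓ
      by_cases h : sp ℓ
      · simp only [if_pos h]
        exact Nat.zero_le _
      · simp only [if_neg h]
        exact hA.le _ _)
    (by
      intro i
      rw [hsumN i i.2]
      refine (sbp_tr (P := P) ?_ ?_).symm
      · intro v
        rw [Fin.ext_iff]
        exact ⟨fun h => ⟨h, v.2.2⟩, fun h => h.1⟩
      · intro v hv
        exact ⟨by rw [hv.1]; exact i.2, hv.2⟩)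
    (by
      intro i
      refine le_trans ?_ (le_of_eq (sbp_tr (P := P)
        (r := fun u => nd u = i ∧ u ∉ W ∧ u ∉ T ∧ qt u < 2) ?_ ?_).symm)
      rotate_left
      · intro v
        rw [Fin.ext_iff]
        exact ⟨fun h => ⟨h.1, v.2.2.1, v.2.2.2, h.2⟩, fun h => ⟨h.1, h.2.2.2⟩⟩
      · intro v hv
        exact ⟨by rw [hv.1]; exact i.2, hv.2.1, hv.2.2.1⟩
      by_cases hex : ∃ v, nd v = i ∧ v ∉ W
      · obtain ⟨v, hv1, hv2⟩ := hex
        have h1 := (hhalf v (by rw [hv1]; exact i.2) hv2).1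
        rw [hv1] at h1
        have h3 := hsumZ Z2 (fun j hj => (hm2 j hj).2) hcZ2 i i.2
        omega
      · have h0 : ∑ ℓ ∈ range (Δ + 2 * p), (if sp ℓ then 0 else a i ℓ) = 0 := by
          rw [hsumN i i.2]
          exact sbp_0 fun v hv => hex ⟨v, hv.1, hv.2.1⟩
        have h1 : ∑ ℓ ∈ Z2, (if sp ℓ then 0 else a i ℓ) = 0 := by
          apply Nat.eq_zero_of_le_zero
          exact le_trans (Finset.sum_le_sum_of_subset hs2) h0.le
        rw [h1]
        exact Nat.zero_le _)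
    (by
      intro i
      refine le_trans ?_ (le_of_eq (sbp_tr (P := P)
        (r := fun u => nd u = i ∧ u ∉ W ∧ u ∉ T ∧ ¬ qt u < 2) ?_ ?_).symm)
      rotate_left
      · intro v
        rw [Fin.ext_iff]
        exact ⟨fun h => ⟨h.1, v.2.2.1, v.2.2.2, h.2⟩, fun h => ⟨h.1, h.2.2.2⟩⟩
      · intro v hv
        exact ⟨by rw [hv.1]; exact i.2, hv.2.1, hv.2.2.1⟩
      by_cases hex : ∃ v, nd v = i ∧ v ∉ W
      · obtain ⟨v, hv1, hv2⟩ := hex
        have h1 := (hhalf v (by rw [hv1]; exact i.2) hv2).2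
        rw [hv1] at h1
        have h3 := hsumZ Z1 (fun j hj => by have := (hm1 j hj).2; omega) hcZ1 i i.2
        omega
      · have h0 : ∑ ℓ ∈ range (Δ + 2 * p), (if sp ℓ then 0 else a i ℓ) = 0 := by
          rw [hsumN i i.2]
          exact sbp_0 fun v hv => hex ⟨v, hv.1, hv.2.1⟩
        have h1 : ∑ ℓ ∈ Z1, (if sp ℓ then 0 else a i ℓ) = 0 := by
          apply Nat.eq_zero_of_le_zero
          exact le_trans (Finset.sum_le_sum_of_subset hs1) h0.le
        rw [h1]
        exact Nat.zero_le _)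
    (by
      intro v
      refine le_trans ?_ (hF.dF v.1 v.2.1)
      unfold dg
      refine le_trans (le_of_eq (sbp_tr (P := P) (r := fun u => P u ∧ F.Adj v.1 u)
        (fun u => ⟨fun h => ⟨u.2, h⟩, fun h => h.2⟩) (fun u h => h.1))) ?_
      refine le_trans (sbp_le (q := fun u => F.Adj v.1 u) fun u h => h.2) ?_
      exact le_of_eq (sbp_e fun _ => Iff.rfl).symm)
    (by
      intro v
      have hd := hF.dF v.1 v.2.1
      have h1 := hF.cnt v.1
      rw [← hFdef] at hd h1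
      refine le_trans (Finset.card_le_card (t := (((range (Δ + 2 * p)).filter fun ℓ =>
        φ ℓ v.1 ≠ v.1).biUnion fun m => (range (Δ + 2 * p)).filter fun j =>
          m ∈ BB p (Δ + 2 * p) j) ∪ (univ.filter fun u => F.Adj v.1 u).image lam) ?_) ?_
      · intro ℓ hℓ
        rw [sbp_mf, sbp_mf] at hℓ
        rw [mem_union, mem_biUnion, mem_image]
        rcases hℓ.2.2.2 with ⟨m, hm, h⟩ | ⟨u, _, h3, h4⟩
        · refine Or.inl ⟨m, ?_, ?_⟩
          · rw [mem_filter]
            exact ⟨bb_sub p (Δ + 2 * p) ℓ hL1 hm, h⟩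
          · rw [mem_filter]
            exact ⟨hℓ.1, hm⟩
        · exact Or.inr ⟨u, by rw [mem_filter]; exact ⟨mem_univ _, h3.symm⟩, h4⟩
      · have h3 : (univ.filter fun u => F.Adj v.1 u).card = dg F v.1 := rfl
        refine le_trans (Finset.card_union_le _ _) ?_
        have h4 : ((univ.filter fun u => F.Adj v.1 u).image lam).card ≤ dg F v.1 :=
          Finset.card_image_le.trans h3.le
        have h5 : ((range (Δ + 2 * p)).filter fun ℓ => φ ℓ v.1 ≠ v.1).card ≤ dg F v.1 := h1.le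
        have h6 : (((range (Δ + 2 * p)).filter fun ℓ =>
            φ ℓ v.1 ≠ v.1).biUnion fun m => (range (Δ + 2 * p)).filter fun j =>
              m ∈ BB p (Δ + 2 * p) j).card ≤ ((range (Δ + 2 * p)).filter fun ℓ =>
            φ ℓ v.1 ≠ v.1).card * (4 * p) := by
          apply Finset.card_biUnion_le_card_mul
          intro m _
          exact bb_num p (Δ + 2 * p) m hp hL1
        have h7 : ((range (Δ + 2 * p)).filter fun ℓ => φ ℓ v.1 ≠ v.1).card * (4 * p) ≤
            d * (4 * p) := Nat.mul_le_mul_right _ (h5.trans hd)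
        have h8 : d ≤ p * d := Nat.le_mul_of_pos_left d hp
        have h9 : 5 * p * d = d * (4 * p) + p * d := by ring
        omega)
    (by
      intro ℓ hℓ
      refine le_trans (le_of_eq (sbp_tr (P := P) (r := fun v => P v ∧ (¬ sp ℓ ∧
        ((∃ m ∈ BB p (Δ + 2 * p) ℓ, φ m v ≠ v) ∨ ∃ u ∈ W, F.Adj u v ∧ lam u = ℓ)))
        (fun u => ⟨fun h => ⟨u.2, h⟩, fun h => h.2⟩) (fun u h => h.1))) ?_
      have h1 : ((BB p (Δ + 2 * p) ℓ).biUnion fun m =>
          univ.filter fun v => nd v < 2 * k ∧ φ m v ≠ v).card ≤ 2 * p * D := by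
        refine le_trans (Finset.card_biUnion_le_card_mul _ _ D ?_) ?_
        · intro m hm
          exact hF.sm m (mem_range.1 (bb_sub p (Δ + 2 * p) ℓ hL1 hm))
        · rw [bb_card]
          exact Nat.mul_le_mul_right D (Nat.sub_le _ _)
      have h2 : (sbp_c fun v => P v ∧ (¬ sp ℓ ∧
          ((∃ m ∈ BB p (Δ + 2 * p) ℓ, φ m v ≠ v) ∨ ∃ u ∈ W, F.Adj u v ∧ lam u = ℓ))) ≤
          (((BB p (Δ + 2 * p) ℓ).biUnion fun m =>
            univ.filter fun v => nd v < 2 * k ∧ φ m v ≠ v) ∪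
          (W.filter fun u => lam u = ℓ).biUnion
            fun u => univ.filter fun v => F.Adj u v).card := by
        apply sbp_sub
        intro v hv
        rw [mem_union, mem_biUnion, mem_biUnion]
        rcases hv.2.2 with ⟨m, hm, h⟩ | ⟨u, h3, h4, h5⟩
        · exact Or.inl ⟨m, hm, by rw [mem_filter]; exact ⟨mem_univ _, hv.1.1, h⟩⟩
        · exact Or.inr ⟨u, by rw [mem_filter]; exact ⟨h3, h5⟩, by
            rw [mem_filter]; exact ⟨mem_univ _, h4⟩⟩
      have h3 : (W.filter fun u => lam u = ℓ).card ≤ 2 * k * s := by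
        have h4 : (W.filter fun u => lam u = ℓ).card =
            ∑ j ∈ range (2 * k), ((W.filter fun u => lam u = ℓ).filter fun u => nd u = j).card := by
          apply Finset.card_eq_sum_card_fiberwise
          intro v hv
          have hv' := Finset.mem_coe.1 hv
          rw [mem_filter] at hv'
          exact Finset.mem_coe.2 (mem_range.2 (hW.sub v hv'.1).1)
        rw [h4]
        calc _ ≤ ∑ j ∈ range (2 * k), s := by
              apply Finset.sum_le_sum
              intro j _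
              refine le_trans (le_of_eq ?_) (hW.sz j ℓ)
              unfold wn
              rw [filter_filter]
              apply congrArg Finset.card
              ext u
              simp only [mem_filter]
              tauto
          _ = 2 * k * s := by rw [sum_const, card_range, smul_eq_mul]
      have h6 : ((W.filter fun u => lam u = ℓ).biUnion
          fun u => univ.filter fun v => F.Adj u v).card ≤ (W.filter fun u => lam u = ℓ).card * d := by
        apply Finset.card_biUnion_le_card_mul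
        intro u hu
        rw [mem_filter] at hu
        exact hF.dF u (hW.sub u hu.1).1
      calc _ ≤ _ := h2
        _ ≤ _ := Finset.card_union_le _ _
        _ ≤ 2 * p * D + 2 * k * s * d :=
          Nat.add_le_add h1 (h6.trans (Nat.mul_le_mul_right d h3)))
    (by
      intro v
      have hh := hhalf v.1 v.2.1 v.2.2.1
      have hK : K * (5 * p * d + d) + (2 * p * D + 2 * k * s * d) +
          2 * Fintype.card (Fin (2 * k)) * K * d ≤
          6 * K * p * d + 2 * p * D + 2 * k * s * d + 4 * k * K * d := by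
        rw [Fintype.card_fin]
        have h8 : d ≤ p * d := Nat.le_mul_of_pos_left d hp
        have h9 : K * (5 * p * d + d) ≤ K * (5 * p * d + p * d) :=
          Nat.mul_le_mul_left K (Nat.add_le_add_left h8 _)
        have h10 : K * (5 * p * d + p * d) = 6 * K * p * d := by ring
        have h11 : 2 * (2 * k) * K * d = 4 * k * K * d := by ring
        omega
      refine lt_of_le_of_lt hK ?_
      by_cases hx : qt v.1 < 2
      · refine lt_of_lt_of_le ?_ (le_of_eq (sbp_tr (P := P)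
          (r := fun u => nd u = nd v.1 ∧ u ∉ W ∧ u ∉ T ∧ qt u < 2) ?_ ?_).symm)
        · have := hh.1
          omega
        · intro u
          rw [Fin.ext_iff]
          exact ⟨fun h => ⟨h.1, u.2.2.1, u.2.2.2, h.2.2 hx⟩,
            fun h => ⟨h.1, iff_of_true h.2.2.2 hx⟩⟩
        · intro u hu
          exact ⟨by rw [hu.1]; exact v.2.1, hu.2.1, hu.2.2.1⟩
      · refine lt_of_lt_of_le ?_ (le_of_eq (sbp_tr (P := P)
          (r := fun u => nd u = nd v.1 ∧ u ∉ W ∧ u ∉ T ∧ ¬ qt u < 2) ?_ ?_).symm)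
        · have := hh.2
          omega
        · intro u
          rw [Fin.ext_iff]
          exact ⟨fun h => ⟨h.1, u.2.2.1, u.2.2.2, fun h' => hx (h.2.1 h')⟩,
            fun h => ⟨h.1, iff_of_false h.2.2.2 hx⟩⟩
        · intro u hu
          exact ⟨by rw [hu.1]; exact v.2.1, hu.2.1, hu.2.2.1⟩)
  -- labels that occur
  set c1 : V → ℕ := fun v => if h : P v then c ⟨v, h⟩ else 0 with hc1def
  have hc1v : ∀ v (h : P v), c1 v = c ⟨v, h⟩ := by
    intro v h
    rw [hc1def]
    exact dif_pos h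
  have hnum : ∀ j < 2 * k, ∀ ℓ < Δ + 2 * p,
      (sbp_c fun v => nd v = j ∧ v ∉ W ∧ v ∉ T ∧ c1 v = ℓ) = if sp ℓ then 0 else a j ℓ := by
    intro j hj ℓ hℓ
    refine (sbp_tr (P := P) (r := fun v => nd v = j ∧ v ∉ W ∧ v ∉ T ∧ c1 v = ℓ)
      ?_ ?_).symm.trans (hc4 ⟨j, hj⟩ ℓ hℓ)
    · intro v
      rw [Fin.ext_iff, hc1v v.1 v.2]
      exact ⟨fun h => ⟨h.1, v.2.2.1, v.2.2.2, h.2⟩, fun h => ⟨h.1, h.2.2.2⟩⟩
    · intro v hv
      exact ⟨by rw [hv.1]; exact hj, hv.2.1, hv.2.2.1⟩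
  have hocc : ∀ v : {v // P v}, ¬ sp (c v) ∧ 0 < a (nd v.1) (c v) := by
    intro v
    have h1 := hnum (nd v.1) (hPi v) (c v) (hc1 v)
    have h2 : 0 < sbp_c fun v' => nd v' = nd v.1 ∧ v' ∉ W ∧ v' ∉ T ∧ c1 v' = c v := by
      exact sbp_pos v.1 ⟨rfl, v.2.2.1, v.2.2.2, hc1v v.1 v.2⟩
    rw [h1] at h2
    by_cases h : sp (c v)
    · rw [if_pos h] at h2
      exact absurd h2 (lt_irrefl 0)
    · rw [if_neg h] at h2
      exact ⟨h, h2⟩
  have hfree : ∀ v : {v // P v}, (∀ m ∈ BB p (Δ + 2 * p) (c v), φ m v.1 = v.1) ∧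
      ∀ u ∈ W, F.Adj u v.1 → lam u ≠ c v := by
    intro v
    have h1 := hc2 v
    rw [sbp_mf, not_and_or, not_and_or, not_or] at h1
    rcases h1 with h1 | h1 | h1
    · exact absurd (mem_univ _) h1
    · exact absurd (hocc v).1 h1
    · refine ⟨fun m hm => ?_, fun u hu h2 h3 => h1.2 ⟨u, hu, h2, h3⟩⟩
      by_contra h
      exact h1.1 ⟨m, hm, h⟩
  have hnotodd : ∀ i < k, ty i → ∀ v, nd v / 2 = i → nd v = 2 * i := by
    intro i hi hty v hv
    have h1 := hF.odd i hi hty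
    have h2 : nd v ≠ 2 * i + 1 := by
      intro h
      have : v ∈ pt nd (2 * i + 1) := by
        unfold pt
        rw [mem_filter]
        exact ⟨mem_univ _, h⟩
      rw [h1] at this
      exact absurd this (Finset.notMem_empty _)
    omega
  refine ⟨c1, ?_, ?_, ?_⟩
  · intro v hv1 hv2 hv3
    have hPv : P v := ⟨hv1, hv2, hv3⟩
    rw [hc1v v hPv]
    refine ⟨hc1 _, ?_, (hfree ⟨v, hPv⟩).1, ?_, ?_, ?_⟩
    rotate_left 2
    · intro h ℓ hℓ hT
      apply hc5 ⟨v, hPv⟩ h
      rw [hZ1]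
      exact ⟨mem_range.2 (hc1 _), ℓ, hℓ, hT⟩
    · intro h ℓ hℓ hT
      apply hc6 ⟨v, hPv⟩ h
      rw [hZ2]
      exact ⟨mem_range.2 (hc1 _), ℓ, hℓ, hT⟩
    · intro w hw h
      exact (hocc ⟨v, hPv⟩).1 ⟨w, hw, h⟩
    · intro u hu huv
      by_cases hFuv : F.Adj u v
      · exact (hfree ⟨v, hPv⟩).2 u hu hFuv
      · have hH : (Hg G k ty nd).Adj u v := by
          by_contra hH
          exact hFuv ⟨huv, hH⟩
        obtain ⟨_, h1, h2, h3, h4⟩ := hH
        intro hl
        have hty := (hW.sub u hu).2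
        have hi : nd u / 2 < k := by omega
        have hnu := hnotodd _ hi hty u rfl
        have hnv := hnotodd _ hi hty v h3.symm
        have h5 := hA.e2 _ hi hty u hu hnu
        have h6 := (hocc ⟨v, hPv⟩).2
        simp only at h6
        rw [hnv, ← hl, h5] at h6
        exact absurd h6 (lt_irrefl 0)
  · intro u v hu1 hu2 hu3 hv1 hv2 hv3 huv
    have hPv : P v := ⟨hv1, hv2, hv3⟩
    have hPu : P u := ⟨hu1, hu2, hu3⟩
    rw [hc1v v hPv, hc1v u hPu]
    by_cases hFuv : F.Adj u v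
    · exact hc3 ⟨u, hPu⟩ ⟨v, hPv⟩ hFuv
    · have hH : (Hg G k ty nd).Adj u v := by
        by_contra hH
        exact hFuv ⟨huv, hH⟩
      obtain ⟨_, h1, h2, h3, h4⟩ := hH
      intro hl
      have hi : nd u / 2 < k := by omega
      by_cases hty : ty (nd u / 2)
      · have hnu := hnotodd _ hi hty u rfl
        have hnv := hnotodd _ hi hty v h3.symm
        have h5 := hA.e1 _ hi hty (c ⟨u, hPu⟩)
        rw [← hnu] at h5
        have h6 := hnum (nd u) h1 (c ⟨u, hPu⟩) (hc1 _)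
        rw [if_neg (hocc ⟨u, hPu⟩).1] at h6
        rw [← h6] at h5
        have h7 := sbp_one h5 (u := u) (v := v) ⟨rfl, hu2, hu3, hc1v u hPu⟩
          ⟨by rw [hnu, hnv], hv2, hv3, by rw [hc1v v hPv, hl]⟩
        exact G.irrefl (h7 ▸ huv)
      · have hne : nd u ≠ nd v := by
          rcases h4 with h4 | h4
          · exact absurd h4 hty
          · exact h4
        have h5 := hA.b1 _ hi hty (c ⟨u, hPu⟩)
        have h6 := (hocc ⟨u, hPu⟩).2
        have h7 := (hocc ⟨v, hPv⟩).2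
        simp only at h6 h7
        rw [← hl] at h7
        have h8 : (nd u = 2 * (nd u / 2) ∧ nd v = 2 * (nd u / 2) + 1) ∨
            (nd v = 2 * (nd u / 2) ∧ nd u = 2 * (nd u / 2) + 1) := by omega
        rcases h8 with ⟨h8, h9⟩ | ⟨h8, h9⟩
        · rcases h5 with h5 | h5
          · rw [← h8] at h5
            omega
          · rw [← h9] at h5
            omega
        · rcases h5 with h5 | h5
          · rw [← h8] at h5
            omega
          · rw [← h9] at h5
            omega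
  · intro j hj ℓ hℓ hspℓ
    have hns : ¬ sp ℓ := by
      rintro ⟨w, hw, h⟩
      exact hspℓ w hw h
    have h1 := hnum j hj ℓ hℓ
    rw [if_neg hns] at h1
    rw [← h1]
    exact sbp_e fun _ => Iff.rfl

end Pool.Agent.H46.GP
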