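import Mathlib
import Pool.Agent.H46.GA.Mxp
import Pool.Agent.H46.GP.Defs

/-!
WSP: the classes chosen in one expanding part, `p ≥ 1`. Adaptation of `wsa` (`Pool/Agent/H46/GA/Wsa.lean`, proved) with `Δ + 1` replaced by `Δ + 2 p - 1`. Use the STATEMENT of `prs` (`GA/Mxp.lean`).

Proof.  `C := pt nd (2 i)`, `N := #C`, `m1 := N - (Δ + 2 p - 1)`.
 * If `z < 16 m1`: then `z < 16 (N - (Δ + 1))`, so `hgr` gives `m, γ`; `Wi := C`; first alternative (`Δ + 2 p ≤ N`); `m + 8 s p d + 2 t + 6 p + r ≤ Δ` by `hq`.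
 * Otherwise `16 m1 ≤ z`. If `m1 = 0`: `Wi := ∅`, `m := 0`, `γ := 0`. If `0 < m1`: `N = Δ + 2 p - 1 + m1`, for `v ∈ C` the number of `u ∈ C`, `u ≠ v`, not adjacent to `v`, is `m1 + (2 p - 2) + dg (Fg G k ty nd) v` (`hF.cod`), between `m1` and `m1 + (d + (2 p - 2))` (`hF.dF`). `4 m1 + 2 (d + (2 p - 2)) < N` by `hz`.
   `prs` (with `p := m1`, `d := d + (2 p - 2)`) gives `W, γ`; `Wi := W`, `m := m1`. `Grp G W m1 s γ` by `2 ≤ s`. `#W = 2 m1`, so `8 #W ≤ z`.
-/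

set_option autoImplicit false

namespace Pool.Agent.H46.GP

open Finset Classical
open Pool.Agent.H71.DN Pool.Agent.H71.DX Pool.Agent.H71.DR Pool.Agent.H71.HL Pool.Agent.H71.DC
open Pool.Agent.H71.TD Pool.Agent.H90.TDP Pool.Agent.H46.GA

theorem wsp {V : Type} [Fintype V] (G : SimpleGraph V) (Δ p k : ℕ) (ty : ℕ → Prop)
    (nd qt : V → ℕ) (sf : ℕ → Finset V) (t : ℕ) (φ : ℕ → V → V) (c0 : V → ℕ) (d D r z e : ℕ)
    (hF : Fy G Δ p k ty nd qt sf t φ c0 d D r z e) (s q : ℕ) (hp : 1 ≤ p) (hs : 2 ≤ s)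
    (hq : 8 * s * p * d + 2 * t + 6 * p + r ≤ q)
    (hz : z + 2 * d + 8 * s * p * d + 2 * t + 10 * p + r ≤ Δ)
    (hgr : ∀ i < k, ty i → z < 16 * ((pt nd (2 * i)).card - (Δ + 1)) →
      ∃ (m : ℕ) (γ : V → ℕ), Grp G (pt nd (2 * i)) m s γ ∧ m + q ≤ Δ)
    (i : ℕ) (hi : i < k) (hty : ty i) :
    ∃ (Wi : Finset V) (m : ℕ) (γ : V → ℕ), Wi ⊆ pt nd (2 * i) ∧ Grp G Wi m s γ ∧
      m + 8 * s * p * d + 2 * t + 6 * p + r ≤ Δ ∧
      ((Wi = pt nd (2 * i) ∧ Δ + 2 * p ≤ (pt nd (2 * i)).card) ∨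
        (8 * Wi.card ≤ z ∧ m = (pt nd (2 * i)).card - (Δ + 2 * p - 1) ∧
          ∀ j < m, (Wi.filter fun v => γ v = j).card = 2)) := by
  obtain ⟨C, hC⟩ : ∃ C, C = pt nd (2 * i) := ⟨_, rfl⟩
  by_cases hcase : z < 16 * ((pt nd (2 * i)).card - (Δ + 2 * p - 1))
  · have hcase' : z < 16 * ((pt nd (2 * i)).card - (Δ + 1)) := by omega
    obtain ⟨m, γ, hG, hm⟩ := hgr i hi hty hcase'
    exact ⟨pt nd (2 * i), m, γ, Finset.Subset.refl _, hG, by omega, Or.inl ⟨rfl, by omega⟩⟩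
  · rw [not_lt] at hcase
    have hcod := hF.cod i hi hty
    have hnd : ∀ v ∈ pt nd (2 * i), nd v < 2 * k := by
      intro v hv
      unfold pt at hv
      rw [mem_filter] at hv
      omega
    rw [← hC] at hcase hcod hnd ⊢
    obtain ⟨m1, hm1⟩ : ∃ m1, m1 = C.card - (Δ + 2 * p - 1) := ⟨_, rfl⟩
    rw [← hm1] at hcase
    rcases Nat.eq_zero_or_pos m1 with hp0 | hp0
    · refine ⟨∅, 0, fun _ => 0, Finset.empty_subset _, ⟨?_, ?_, ?_⟩, by omega, Or.inr ⟨?_, ?_, ?_⟩⟩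
      · intro v hv
        exact absurd hv (Finset.notMem_empty v)
      · intro v hv
        exact absurd hv (Finset.notMem_empty v)
      · intro j
        rw [Finset.filter_empty, Finset.card_empty]
        exact Nat.zero_le _
      · rw [Finset.card_empty, Nat.mul_zero]
        exact Nat.zero_le _
      · omega
      · intro j hj
        exact absurd hj (Nat.not_lt_zero j)
    · have hN : C.card = Δ + 2 * p - 1 + m1 := by omega
      have h1 : ∀ v ∈ C, m1 ≤ (C.filter fun u => u ≠ v ∧ ¬ G.Adj v u).card := by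
        intro v hv
        have h := hcod v hv
        omega
      have h2 : ∀ v ∈ C, (C.filter fun u => u ≠ v ∧ ¬ G.Adj v u).card ≤ m1 + (d + (2 * p - 2)) := by
        intro v hv
        have h := hcod v hv
        have h3 := hF.dF v (hnd v hv)
        omega
      obtain ⟨W, γ, hW, hG, hj⟩ := prs G C m1 (d + (2 * p - 2)) h1 h2 (by omega)
      have hWc : W.card = 2 * m1 := by
        have h3 : W.card = ∑ j ∈ range m1, (W.filter fun v => γ v = j).card :=
          Finset.card_eq_sum_card_fiberwise fun v hv => by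
            rw [Finset.mem_coe, mem_range]
            exact hG.lt v hv
        rw [h3, Finset.sum_congr rfl fun j hj' => hj j (mem_range.1 hj'), Finset.sum_const,
          card_range, smul_eq_mul, Nat.mul_comm]
      refine ⟨W, m1, γ, hW, ⟨hG.lt, hG.pr, fun j => (hG.sz j).trans hs⟩, by omega,
        Or.inr ⟨by omega, hm1, hj⟩⟩

end Pool.Agent.H46.GP
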