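import Mathlib
import Pool.Agent.H46.GP.Wtp
import Pool.Agent.H46.GP.Ddp
import Pool.Agent.H46.GP.Sgp

/-!
COP: the colours, from `wtp` (`GP/Wtp.lean`), `ddp` (`GP/Ddp.lean`), `sgp` (`GP/Sgp.lean`), `GP/Bbl.lean`; use only their STATEMENTS. Adaptation of `col` (`Pool/Agent/H46/GA/Col.lean`, proved).

Proof.  `zi i := c0 w` if there is `w ∈ pt nd (2 k)` with `w ∈ sf i` (choose one), `0` otherwise. `zi i < Δ + 2 p` (`hF.c1`); for `ty i` the set `sf i` has at most one element (`hF.sf1`). `wtp` gives `W, lam`, `ddp` gives `a`, `sgp` gives `cc`. `L := Δ + 2 p`.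
 `Cp .. (4 p (K + s)) φ cc`: `lt, fr, pr, t1, t2` from `sgp`, `cl` from `sgp` and `hF.c1, hF.c3`. `bw p L nd cc j ℓ = sw p L (fun m => ow nd cc j m) ℓ` (`bw_sw`), and this only depends on `ow nd cc j m` for `m < L` (definition of `sw`), where `ow nd cc j m = a j m + wn nd W lam j m` (`j < 2 k`). `ct`: `sw_le` with `a j m + wn .. ≤ K + s` (`Dp.le`, `Wp.sz`).
 `ev`: from `ddp`. `ba`, `bt`: for `¬ ty i` no vertex of `W` is in the pieces `2 i`, `2 i + 1` (`Wp.sub`), so `bw p L nd cc (2 i) ℓ = sw p L (a (2 i)) ℓ` and the same for `2 i + 1`; `ba` is the last claim of `ddp`; `bt`: `gp = 0 - 0 - uu` and `hF.ub` (`ℓ ∈ T1` or `T2` implies `ℓ < 4 p + 2 t ≤ L`).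
-/

set_option autoImplicit false

namespace Pool.Agent.H46.GP

open Finset Classical
open Pool.Agent.H71.DN Pool.Agent.H71.DX Pool.Agent.H71.DR Pool.Agent.H71.HL Pool.Agent.H71.DC
open Pool.Agent.H71.TD Pool.Agent.H90.TDP Pool.Agent.H46.GA

theorem cop {V : Type} [Fintype V] (G : SimpleGraph V) (Δ p k : ℕ) (ty : ℕ → Prop)
    (nd qt : V → ℕ) (sf : ℕ → Finset V) (t : ℕ) (φ : ℕ → V → V) (c0 : V → ℕ) (d D r z e : ℕ)
    (hF : Fy G Δ p k ty nd qt sf t φ c0 d D r z e) (hp : 2 ≤ p) (s q : ℕ) (hs : 2 ≤ s)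
    (hq : 8 * s * p * d + 2 * t + 6 * p + r ≤ q)
    (hz : z + 2 * d + 8 * s * p * d + 2 * t + 10 * p + r ≤ Δ)
    (hgr : ∀ i < k, ty i → z < 16 * ((pt nd (2 * i)).card - (Δ + 1)) →
      ∃ (m : ℕ) (γ : V → ℕ), Grp G (pt nd (2 * i)) m s γ ∧ m + q ≤ Δ)
    (hΔ : 20 * p + 4 * t + 20 ≤ Δ) (M K : ℕ)
    (hM : Fintype.card V ≤ M * Δ) (hK : 4 * M * p + 1 ≤ K) (hKΔ : 30 * K ≤ Δ)
    (hn : 2 * (2 * p * D + e + 2 * k * r + 2 * k * e) < z)
    (hn1 : 8 * (6 * K * p * d + 2 * p * D + 2 * k * s * d + 4 * k * K * d + 2 * k * r) < Δ)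
    (hn2 : 8 * (t + 2 * p + 2 * k * r) ≤ Δ) :
    ∃ cc : V → ℕ, Cp G Δ p k ty nd qt t (4 * p * (K + s)) φ cc := by
  classical
  have hp1 : 1 ≤ p := by omega
  have hzD : z ≤ Δ := by omega
  have hL : 2 * p - 1 ≤ Δ + 2 * p := by omega
  set zi : ℕ → ℕ := fun i =>
    if h : ∃ w, w ∈ pt nd (2 * k) ∧ w ∈ sf i then c0 (Classical.choose h) else 0 with hzidef
  have hzi : ∀ i < k, zi i < Δ + 2 * p := by
    intro i _
    by_cases h : ∃ w, w ∈ pt nd (2 * k) ∧ w ∈ sf i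
    · have h1 : zi i = c0 (Classical.choose h) := by
        rw [hzidef]
        simp only [h, dif_pos]
      rw [h1]
      have := (hF.c1 _ (Classical.choose_spec h).1).2
      omega
    · have h1 : zi i = 0 := by
        rw [hzidef]
        simp only [h, dif_neg, not_false_iff]
      rw [h1]
      omega
  have hzi2 : ∀ i < k, ty i → ∀ w ∈ pt nd (2 * k), w ∈ sf i → c0 w = zi i := by
    intro i hi hty w hw hwi
    have h : ∃ w, w ∈ pt nd (2 * k) ∧ w ∈ sf i := ⟨w, hw, hwi⟩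
    have h1 : zi i = c0 (Classical.choose h) := by
      rw [hzidef]
      simp only [h, dif_pos]
    have h2 : w = Classical.choose h :=
      Finset.card_le_one.1 (hF.sf1 i hi hty) w hwi _ (Classical.choose_spec h).2
    rw [h1, ← h2]
  obtain ⟨W, lam, hW⟩ := wtp G Δ p k ty nd qt sf t φ c0 d D r z e hF s q hp1 hs hq hz hgr zi
  obtain ⟨a, hA, hev, hbt, hba⟩ := ddp G Δ p k ty nd qt sf t φ c0 d D r z e hF zi s W lam hW hp hzD
    hΔ M K hM hK hKΔ hzi hzi2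
  obtain ⟨cc, h1, h2, h3, h4, h5, h5', h6⟩ := sgp G Δ p k ty nd qt sf t φ c0 d D r z e hF hp1 zi s K
    W lam hW a hA hn hn1 hn2
  have hbw : ∀ j < 2 * k, ∀ ℓ, bw p (Δ + 2 * p) nd cc j ℓ =
      sw p (Δ + 2 * p) (fun m => a j m + wn nd W lam j m) ℓ := by
    intro j hj ℓ
    rw [bw_sw p (Δ + 2 * p) nd cc h1 j ℓ]
    unfold sw
    refine Finset.sum_congr rfl fun m hm => ?_
    exact h6 j hj m (Finset.mem_range.1 (Finset.mem_filter.1 hm).1)
  have hw0 : ∀ i < k, ¬ ty i → ∀ ℓ, wn nd W lam (2 * i) ℓ = 0 := by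
    intro i _ hty ℓ
    unfold wn
    rw [Finset.card_eq_zero, Finset.filter_eq_empty_iff]
    intro v hv hc
    apply hty
    have h7 := (hW.sub v hv).2
    have h8 : nd v / 2 = i := by
      have := hc.1
      omega
    rw [h8] at h7
    exact h7
  have hw1 : ∀ i < k, ¬ ty i → ∀ ℓ, wn nd W lam (2 * i + 1) ℓ = 0 := by
    intro i _ hty ℓ
    unfold wn
    rw [Finset.card_eq_zero, Finset.filter_eq_empty_iff]
    intro v hv hc
    apply hty
    have h7 := (hW.sub v hv).2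
    have h8 : nd v / 2 = i := by
      have := hc.1
      omega
    rw [h8] at h7
    exact h7
  have hb0 : ∀ i < k, ¬ ty i → ∀ ℓ, bw p (Δ + 2 * p) nd cc (2 * i) ℓ =
      sw p (Δ + 2 * p) (a (2 * i)) ℓ := by
    intro i hi hty ℓ
    rw [hbw (2 * i) (by omega) ℓ]
    simp only [hw0 i hi hty, Nat.add_zero]
  have hb1 : ∀ i < k, ¬ ty i → ∀ ℓ, bw p (Δ + 2 * p) nd cc (2 * i + 1) ℓ =
      sw p (Δ + 2 * p) (a (2 * i + 1)) ℓ := by
    intro i hi hty ℓ
    rw [hbw (2 * i + 1) (by omega) ℓ]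
    simp only [hw1 i hi hty, Nat.add_zero]
  have hgg : ∀ i < k, ¬ ty i → ∀ ℓ, gp p (Δ + 2 * p) nd φ cc i ℓ =
      (sw p (Δ + 2 * p) (a (2 * i + 1)) ℓ : ℤ) - sw p (Δ + 2 * p) (a (2 * i)) ℓ -
        uu nd (φ ℓ) i := by
    intro i hi hty ℓ
    unfold gp
    rw [hb0 i hi hty ℓ, hb1 i hi hty ℓ]
  refine ⟨cc, ?_⟩
  refine ⟨h1, h2, h3, h4, h5, ?_, ?_, ?_, ?_, ?_⟩
  · intro j hj ℓ _
    rw [hbw j hj ℓ]
    exact sw_le p (Δ + 2 * p) hp1 hL _ (K + s) (fun m => Nat.add_le_add (hA.le j m) (hW.sz j m)) ℓ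
  · intro i hi hty
    have h7 := hev i hi hty
    simp only [hbw (2 * i) (by omega)]
    exact h7
  · intro i hi hty
    simp only [hgg i hi hty]
    exact hba i hi hty
  · intro i hi hty ℓ hℓ
    have h7 := hbt i hi hty ℓ hℓ
    rw [hgg i hi hty ℓ, h7.1, h7.2]
    have h8 : ℓ < Δ + 2 * p := by
      rcases hℓ with h | h
      · unfold T1 at h
        omega
      · unfold T2 at h
        omega
    have h9 := hF.ub i hi hty ℓ h8
    simp only [Nat.cast_zero, sub_zero, zero_sub, abs_neg]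
    exact h9
  · intro w hw
    rw [h5' w hw]
    have h7 := hF.c1 w hw
    exact ⟨by omega, h7.2, hF.c3 w hw⟩

end Pool.Agent.H46.GP
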