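import Mathlib
import Pool.Agent.H46.GA.Hnm
import Pool.Agent.H46.GP.Bbl

/-!
HAP: the numbers of holes in all pieces, `p ≥ 1`. Adaptation of `hla` (`Pool/Agent/H46/GA/Hla.lean`, proved). Use the STATEMENTS of `hnE` (`GA/Hnm.lean`), `dist` (`GA/Nmb.lean`) and of `GP/Bbl.lean`.

`hnC`, proof (variant of `hnB` in `GA/Hnm.lean`).  `∑ max 0 (g ℓ) = ∑ max 0 (-g ℓ) =: P ≤ h` (`hs`). `dist` for `Ico t0 L` and `h - P` gives `e`. `qA ℓ := (g ℓ).toNat + e ℓ`, `qB ℓ := (-g ℓ).toNat + e ℓ` for `ℓ < L` (and `0` for `L ≤ ℓ`), `e ℓ = 0` for `ℓ < t0`.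

`hap`, proof.  `L := Δ + 2 p`, `t0 := 6 p + 2 t`, `K0 := 2 M`. `#pt nd j ≤ card V ≤ M Δ ≤ 2 M (L - t0)` by `ht`. For `j < 2 k`: `∑_{ℓ < L} bw p L nd cc j ℓ = (2 p - 1) #pt nd j` (`bw_sw`, `sw_sum`, and `∑_{m < L} ow nd cc j m = #pt nd j` as `cc v < L`).
 * `i < k`, `ty i`, `N := #pt nd (2 i)` (even): `hnE L t0 N (2 M) (fun ℓ => N + cv nd (φ ℓ) (2 i) + bw p L nd cc (2 i) ℓ)`: `hsum`: `∑ = L N + ∑ cv + (2 p - 1) N`, even by `hF.sE`, `hF.even`. `hodd`: `hC.ev`. It gives `q`; `b (2 i) := q` and `b (2 i + 1) := 0` (`hF.odd`). `2 K0 + 3 = 4 M + 3`.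
 * `i < k`, `¬ ty i`, `h := #pt nd (2 i) = #pt nd (2 i + 1)`: `hnC L t0 h (2 M) (K + 3) (gp p L nd φ cc i)`: `hs`: `∑ gp = (2 p - 1) h - (2 p - 1) h - 0` (`hF.sB`). `hp`: `hC.ba`. `hg`: `|gp| ≤ K + 3` (`hC.ct`, `hF.ub`). It gives `qA, qB`; `b (2 i) := qA`, `b (2 i + 1) := qB`; at the labels of `T1, T2` (`< t0`) they are `(gp).toNat ≤ 3`, `(-gp).toNat ≤ 3` by `hC.bt`.
 * `b j := 0` for `2 k ≤ j`.
-/

set_option autoImplicit false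

namespace Pool.Agent.H46.GP

open Finset Classical
open Pool.Agent.H71.DN Pool.Agent.H71.DX Pool.Agent.H71.DR Pool.Agent.H71.HL Pool.Agent.H71.DC
open Pool.Agent.H71.TD Pool.Agent.H90.TDP Pool.Agent.H46.GA

theorem hnC (L t0 h K0 K1 : ℕ) (g : ℕ → ℤ) (hs : ∑ ℓ ∈ range L, g ℓ = 0)
    (hp : ∑ ℓ ∈ range L, max 0 (g ℓ) ≤ h)
    (hg : ∀ ℓ < L, |g ℓ| ≤ K1) (ht : t0 < L) (hK : h ≤ K0 * (L - t0)) :
    ∃ qA qB : ℕ → ℕ, (∀ ℓ < L, (qA ℓ : ℤ) - qB ℓ = g ℓ) ∧ ∑ ℓ ∈ range L, qA ℓ = h ∧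
      ∑ ℓ ∈ range L, qB ℓ = h ∧ (∀ ℓ < t0, qA ℓ = (g ℓ).toNat ∧ qB ℓ = (-g ℓ).toNat) ∧
      ∀ ℓ, qA ℓ ≤ K0 + K1 + 1 ∧ qB ℓ ≤ K0 + K1 + 1 := by
  have hP1 : ((∑ ℓ ∈ range L, (g ℓ).toNat : ℕ) : ℤ) = ∑ ℓ ∈ range L, max 0 (g ℓ) := by
    rw [Nat.cast_sum]
    apply sum_congr rfl
    intro x _
    rw [Int.toNat_eq_max]
    exact max_comm _ _
  have hP2 : (∑ ℓ ∈ range L, (-g ℓ).toNat) = ∑ ℓ ∈ range L, (g ℓ).toNat := by
    have h1 : ((∑ ℓ ∈ range L, (g ℓ).toNat : ℕ) : ℤ) - ((∑ ℓ ∈ range L, (-g ℓ).toNat : ℕ) : ℤ)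
        = 0 := by
      rw [Nat.cast_sum, Nat.cast_sum, ← sum_sub_distrib, ← hs]
      apply sum_congr rfl
      intro x _
      omega
    omega
  have hle : (∑ ℓ ∈ range L, (g ℓ).toNat) ≤ h := by
    have : ((∑ ℓ ∈ range L, (g ℓ).toNat : ℕ) : ℤ) ≤ h := by
      rw [hP1]
      exact hp
    exact_mod_cast this
  obtain ⟨e, e1, e2, e3, e4⟩ := Hnm_dist L t0 (h - ∑ ℓ ∈ range L, (g ℓ).toNat) K0 ht (by omega)
  refine ⟨fun ℓ => (if ℓ < L then (g ℓ).toNat else 0) + e ℓ,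
    fun ℓ => (if ℓ < L then (-g ℓ).toNat else 0) + e ℓ, ?_, ?_, ?_, ?_, ?_⟩
  · intro ℓ hℓ
    show (((if ℓ < L then (g ℓ).toNat else 0) + e ℓ : ℕ) : ℤ) -
      (((if ℓ < L then (-g ℓ).toNat else 0) + e ℓ : ℕ) : ℤ) = g ℓ
    rw [if_pos hℓ, if_pos hℓ]
    omega
  · rw [sum_add_distrib, e3]
    have h6 : ∑ x ∈ range L, (if x < L then (g x).toNat else 0) =
        ∑ ℓ ∈ range L, (g ℓ).toNat := by
      apply sum_congr rfl
      intro x hx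
      rw [if_pos (mem_range.mp hx)]
    rw [h6]
    omega
  · rw [sum_add_distrib, e3]
    have h6 : ∑ x ∈ range L, (if x < L then (-g x).toNat else 0) =
        ∑ ℓ ∈ range L, (-g ℓ).toNat := by
      apply sum_congr rfl
      intro x hx
      rw [if_pos (mem_range.mp hx)]
    rw [h6, hP2]
    omega
  · intro ℓ hℓ
    have h8 := e1 ℓ hℓ
    have h9 : ℓ < L := hℓ.trans ht
    refine ⟨?_, ?_⟩
    · show (if ℓ < L then (g ℓ).toNat else 0) + e ℓ = (g ℓ).toNat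
      rw [h8, if_pos h9, Nat.add_zero]
    · show (if ℓ < L then (-g ℓ).toNat else 0) + e ℓ = (-g ℓ).toNat
      rw [h8, if_pos h9, Nat.add_zero]
  · intro ℓ
    have h9 := e4 ℓ
    refine ⟨?_, ?_⟩
    · show (if ℓ < L then (g ℓ).toNat else 0) + e ℓ ≤ K0 + K1 + 1
      split_ifs with hℓ
      · have h10 := abs_le.mp (hg ℓ hℓ)
        omega
      · omega
    · show (if ℓ < L then (-g ℓ).toNat else 0) + e ℓ ≤ K0 + K1 + 1
      split_ifs with hℓ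
      · have h10 := abs_le.mp (hg ℓ hℓ)
        omega
      · omega

theorem hap_ow {V : Type} [Fintype V] (nd cc : V → ℕ) (L : ℕ) (hlt : ∀ v, cc v < L) (j : ℕ) :
    ∑ ℓ ∈ range L, ow nd cc j ℓ = (pt nd j).card := by
  symm
  unfold ow
  apply Finset.card_eq_sum_card_fiberwise
  intro v _
  rw [Finset.mem_coe, Finset.mem_range]
  exact hlt v

theorem hap_bw {V : Type} [Fintype V] (p L : ℕ) (nd cc : V → ℕ) (hL : 2 * p - 1 ≤ L)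
    (hlt : ∀ v, cc v < L) (j : ℕ) :
    ∑ ℓ ∈ range L, bw p L nd cc j ℓ = (2 * p - 1) * (pt nd j).card := by
  rw [← hap_ow nd cc L hlt j, ← sw_sum p L hL]
  exact sum_congr rfl fun ℓ _ => bw_sw p L nd cc hlt j ℓ

theorem hap_one {V : Type} [Fintype V] (G : SimpleGraph V) (Δ p k : ℕ) (ty : ℕ → Prop)
    (nd qt : V → ℕ) (sf : ℕ → Finset V) (t : ℕ) (φ : ℕ → V → V) (c0 : V → ℕ) (d D r z e : ℕ)
    (hF : Fy G Δ p k ty nd qt sf t φ c0 d D r z e) (hp : 1 ≤ p) (K : ℕ) (cc : V → ℕ)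
    (hC : Cp G Δ p k ty nd qt t K φ cc) (M : ℕ) (hM : Fintype.card V ≤ M * Δ)
    (ht : 12 * p + 4 * t < Δ) (i : ℕ) :
    ∃ f0 f1 : ℕ → ℕ, (i < k → ∑ ℓ ∈ range (Δ + 2 * p), f0 ℓ = (pt nd (2 * i)).card ∧
        ∑ ℓ ∈ range (Δ + 2 * p), f1 ℓ = (pt nd (2 * i + 1)).card) ∧
      (∀ ℓ, f0 ℓ ≤ 4 * M + K + 4 ∧ f1 ℓ ≤ 4 * M + K + 4) ∧
      (∀ ℓ, (T1 p t ℓ ∨ T2 p t ℓ) → f0 ℓ ≤ 3 ∧ f1 ℓ ≤ 3) ∧
      (i < k → ty i → ∀ ℓ < Δ + 2 * p, Even ((pt nd (2 * i)).card + cv nd (φ ℓ) (2 * i) +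
        bw p (Δ + 2 * p) nd cc (2 * i) ℓ + f0 ℓ)) ∧
      (i < k → ¬ ty i → ∀ ℓ < Δ + 2 * p, (f0 ℓ : ℤ) - f1 ℓ =
        gp p (Δ + 2 * p) nd φ cc i ℓ) := by
  have hL : 2 * p - 1 ≤ Δ + 2 * p := by omega
  have hT : ∀ ℓ, (T1 p t ℓ ∨ T2 p t ℓ) → ℓ < 6 * p + 2 * t := by
    intro ℓ h
    unfold T1 T2 at h
    omega
  have hK : ∀ j, (pt nd j).card ≤ 2 * M * (Δ + 2 * p - (6 * p + 2 * t)) := by
    intro j
    have h1 : (pt nd j).card ≤ Fintype.card V := Finset.card_le_univ _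
    have h2 : Δ ≤ 2 * (Δ + 2 * p - (6 * p + 2 * t)) := by omega
    have h3 : M * Δ ≤ M * (2 * (Δ + 2 * p - (6 * p + 2 * t))) := Nat.mul_le_mul_left M h2
    have h4 : M * (2 * (Δ + 2 * p - (6 * p + 2 * t))) = 2 * M * (Δ + 2 * p - (6 * p + 2 * t)) := by ring
    omega
  by_cases hi : i < k
  · by_cases hty : ty i
    · have hN := hF.even i hi hty
      have how := hap_bw p (Δ + 2 * p) nd cc hL hC.lt (2 * i)
      have hsum : Even (∑ ℓ ∈ range (Δ + 2 * p), ((pt nd (2 * i)).card + cv nd (φ ℓ) (2 * i) +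
          bw p (Δ + 2 * p) nd cc (2 * i) ℓ)) := by
        rw [Finset.sum_add_distrib, Finset.sum_add_distrib, how, Finset.sum_const,
          Finset.card_range, smul_eq_mul]
        exact ((hN.mul_left _).add (hF.sE i hi hty)).add (hN.mul_left _)
      obtain ⟨q, h1, h2, h3, h4⟩ := hnE (Δ + 2 * p) (6 * p + 2 * t) (pt nd (2 * i)).card (2 * M)
        (fun ℓ => (pt nd (2 * i)).card + cv nd (φ ℓ) (2 * i) + bw p (Δ + 2 * p) nd cc (2 * i) ℓ) hN hsum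
        (hC.ev i hi hty) (by omega) (hK _)
      refine ⟨q, fun _ => 0, ?_, ?_, ?_, ?_, ?_⟩
      · intro _
        refine ⟨h2, ?_⟩
        rw [hF.odd i hi hty]
        exact Finset.sum_const_zero
      · intro ℓ
        have h5 := h4 ℓ
        exact ⟨by omega, Nat.zero_le _⟩
      · intro ℓ hℓ
        exact ⟨(h3 ℓ (hT ℓ hℓ)).trans (by omega), Nat.zero_le _⟩
      · intro _ _ ℓ hℓ
        exact h1 ℓ hℓ
      · intro _ h
        exact absurd hty h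
    · have hbal := hF.bal i hi hty
      have how0 := hap_bw p (Δ + 2 * p) nd cc hL hC.lt (2 * i)
      have how1 := hap_bw p (Δ + 2 * p) nd cc hL hC.lt (2 * i + 1)
      have hs : ∑ ℓ ∈ range (Δ + 2 * p), gp p (Δ + 2 * p) nd φ cc i ℓ = 0 := by
        unfold gp
        rw [Finset.sum_sub_distrib, Finset.sum_sub_distrib, hF.sB i hi hty, ← Nat.cast_sum,
          ← Nat.cast_sum, how0, how1, hbal]
        ring
      have hg : ∀ ℓ < Δ + 2 * p, |gp p (Δ + 2 * p) nd φ cc i ℓ| ≤ ((K + 3 : ℕ) : ℤ) := by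
        intro ℓ hℓ
        have a0 := hC.ct (2 * i) (by omega) ℓ hℓ
        have a1 := hC.ct (2 * i + 1) (by omega) ℓ hℓ
        have a2 := abs_le.1 (hF.ub i hi hty ℓ hℓ)
        unfold gp
        rw [abs_le]
        push_cast
        omega
      obtain ⟨qA, qB, h1, h2, h3, h4, h5⟩ := hnC (Δ + 2 * p) (6 * p + 2 * t) (pt nd (2 * i)).card (2 * M)
        (K + 3) (gp p (Δ + 2 * p) nd φ cc i) hs (hC.ba i hi hty) hg (by omega) (hK _)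
      refine ⟨qA, qB, ?_, ?_, ?_, ?_, ?_⟩
      · intro _
        exact ⟨h2, by rw [h3, hbal]⟩
      · intro ℓ
        have h6 := h5 ℓ
        exact ⟨by omega, by omega⟩
      · intro ℓ hℓ
        have h6 := h4 ℓ (hT ℓ hℓ)
        have h7 := abs_le.1 (hC.bt i hi hty ℓ hℓ)
        exact ⟨by omega, by omega⟩
      · intro _ h
        exact absurd h hty
      · intro _ _ ℓ hℓ
        exact h1 ℓ hℓ
  · refine ⟨fun _ => 0, fun _ => 0, fun h => absurd h hi, fun ℓ => ⟨Nat.zero_le _, Nat.zero_le _⟩,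
      fun ℓ _ => ⟨Nat.zero_le _, Nat.zero_le _⟩, fun h => absurd h hi, fun h => absurd h hi⟩

theorem hap {V : Type} [Fintype V] (G : SimpleGraph V) (Δ p k : ℕ) (ty : ℕ → Prop)
    (nd qt : V → ℕ) (sf : ℕ → Finset V) (t : ℕ) (φ : ℕ → V → V) (c0 : V → ℕ) (d D r z e : ℕ)
    (hF : Fy G Δ p k ty nd qt sf t φ c0 d D r z e) (hp : 1 ≤ p) (K : ℕ) (cc : V → ℕ)
    (hC : Cp G Δ p k ty nd qt t K φ cc) (M : ℕ) (hM : Fintype.card V ≤ M * Δ)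
    (ht : 12 * p + 4 * t < Δ) :
    ∃ b : ℕ → ℕ → ℕ, (∀ j < 2 * k, ∑ ℓ ∈ range (Δ + 2 * p), b j ℓ = (pt nd j).card) ∧
      (∀ j ℓ, b j ℓ ≤ 4 * M + K + 4) ∧
      (∀ j < 2 * k, ∀ ℓ, (T1 p t ℓ ∨ T2 p t ℓ) → b j ℓ ≤ 3) ∧
      (∀ i < k, ty i → ∀ ℓ < Δ + 2 * p, Even ((pt nd (2 * i)).card + cv nd (φ ℓ) (2 * i) +
        bw p (Δ + 2 * p) nd cc (2 * i) ℓ + b (2 * i) ℓ)) ∧
      ∀ i < k, ¬ ty i → ∀ ℓ < Δ + 2 * p,
        (b (2 * i) ℓ : ℤ) - b (2 * i + 1) ℓ = gp p (Δ + 2 * p) nd φ cc i ℓ := by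
  have h0 := hap_one G Δ p k ty nd qt sf t φ c0 d D r z e hF hp K cc hC M hM ht
  choose f0 f1 h1 h2 h3 h4 h5 using h0
  have e0 : ∀ i ℓ, (if 2 * i % 2 = 0 then f0 (2 * i / 2) ℓ else f1 (2 * i / 2) ℓ) = f0 i ℓ := by
    intro i ℓ
    rw [if_pos (by omega), show 2 * i / 2 = i by omega]
  have e1 : ∀ i ℓ, (if (2 * i + 1) % 2 = 0 then f0 ((2 * i + 1) / 2) ℓ else
      f1 ((2 * i + 1) / 2) ℓ) = f1 i ℓ := by
    intro i ℓ
    rw [if_neg (by omega), show (2 * i + 1) / 2 = i by omega]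
  refine ⟨fun j ℓ => if j % 2 = 0 then f0 (j / 2) ℓ else f1 (j / 2) ℓ, ?_, ?_, ?_, ?_, ?_⟩
  · intro j hj
    dsimp only
    by_cases hpj : j % 2 = 0
    · have hj2 : 2 * (j / 2) = j := by omega
      simp only [if_pos hpj]
      have h6 := (h1 (j / 2) (by omega)).1
      rw [hj2] at h6
      exact h6
    · have hj2 : 2 * (j / 2) + 1 = j := by omega
      simp only [if_neg hpj]
      have h6 := (h1 (j / 2) (by omega)).2
      rw [hj2] at h6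
      exact h6
  · intro j ℓ
    dsimp only
    split_ifs
    · exact (h2 _ ℓ).1
    · exact (h2 _ ℓ).2
  · intro j _ ℓ hℓ
    dsimp only
    split_ifs
    · exact (h3 _ ℓ hℓ).1
    · exact (h3 _ ℓ hℓ).2
  · intro i hi hty ℓ hℓ
    dsimp only
    rw [e0]
    exact h4 i hi hty ℓ hℓ
  · intro i hi hty ℓ hℓ
    dsimp only
    rw [e0, e1]
    exact h5 i hi hty ℓ hℓ

end Pool.Agent.H46.GP
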