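import Mathlib
import Pool.Agent.H46.GA.Chg
import Pool.Agent.H46.GP.Gry
import Pool.Agent.H46.GP.Fyc
import Pool.Agent.H46.GP.Cop
import Pool.Agent.H46.GP.Hop

/-!
GAP: the colours and the blocked sets of the vertices for fixed `p ≥ 2`. Assembled from the rows in `Pool/Agent/H46/GP`;
here only the constants are chosen.
-/

set_option autoImplicit false

namespace Pool.Agent.H46.GP

open Finset Classical
open Pool.Agent.H71.DN Pool.Agent.H71.DX Pool.Agent.H71.DR Pool.Agent.H71.HL Pool.Agent.H71.DC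
open Pool.Agent.H71.TD Pool.Agent.H90.TDP Pool.Agent.H46.GA

theorem gp_big (a b : ℝ) (hb : 0 < b) : ∃ N0 : ℕ, ∀ n : ℕ, N0 ≤ n → a ≤ b * (n : ℝ) := by
  refine ⟨⌈a / b⌉₊, fun n hn => ?_⟩
  have h1 : a / b ≤ n := (Nat.le_ceil _).trans (by exact_mod_cast hn)
  rw [div_le_iff₀ hb] at h1
  linarith

/-- The natural number inequalities, from bounds for the parameters. -/
theorem gp_num (M K Kq s p A Δ k d D r z e t : ℕ) (hM1 : 1 ≤ M) (hp : 1 ≤ p)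
    (hA : 64 * (6 * K * p + 4 * M * s + 8 * M * K) + 64 * (4 * M + Kq + 4) + 1000 * s * p + 100
      ≤ A)
    (hk : k ≤ 2 * M) (hAd : A * d ≤ Δ) (ht : 1200 * t ≤ Δ)
    (hD : 10000 * (M * p) * D ≤ Δ) (hr : 10000 * (M * p) * r ≤ Δ)
    (he : 10000 * (M * p) * e ≤ Δ)
    (hz : 10 * z ≤ Δ) (hDz : 500 * (M * p) * D ≤ z) (hrz : 500 * (M * p) * r ≤ z)
    (hez : 500 * (M * p) * e ≤ z) (hz0 : 0 < z)
    (hB : 64 * ((4 * M + Kq + 4) * p) + 64 * (M * Kq) + 1000 * p + 60 * K + 1000 ≤ Δ) :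
    10 * d ≤ Δ ∧ 5 * p + 2 * t + 4 * p * r < Δ ∧
    10 * (8 * s * p * d + 2 * t + 6 * p + r) ≤ Δ ∧ 240 * e ≤ z ∧ d ≤ Δ ∧
    z + 2 * d + 8 * s * p * d + 2 * t + 10 * p + r ≤ Δ ∧ 20 * p + 4 * t + 20 ≤ Δ ∧
    30 * K ≤ Δ ∧
    2 * (2 * p * D + e + 2 * k * r + 2 * k * e) < z ∧
    8 * (6 * K * p * d + 2 * p * D + 2 * k * s * d + 4 * k * K * d + 2 * k * r) < Δ ∧
    8 * (t + 2 * p + 2 * k * r) ≤ Δ ∧ 12 * p + 12 * t < Δ ∧
    4 * ((4 * M + Kq + 4) * (d + 2 * p) + D + 2 * k * Kq) < Δ := by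
  have eA : (64 * (6 * K * p + 4 * M * s + 8 * M * K) + 64 * (4 * M + Kq + 4) + 1000 * s * p
      + 100) * d ≤ Δ := (Nat.mul_le_mul_right d hA).trans hAd
  have eA2 : 384 * (K * p * d) + 256 * (M * s * d) + 512 * (M * K * d) + 256 * (M * d)
      + 64 * (Kq * d) + 256 * d + 1000 * (s * p * d) + 100 * d ≤ Δ := by
    refine le_trans (le_of_eq ?_) eA
    ring
  have hMp1 : 1 ≤ M * p := Nat.mul_pos hM1 hp
  have hMp2 : M ≤ M * p := Nat.le_mul_of_pos_right M hp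
  have hMp3 : p ≤ M * p := Nat.le_mul_of_pos_left p hM1
  have l1 : ∀ y : ℕ, y ≤ M * p * y := fun y => Nat.le_mul_of_pos_left y hMp1
  have l2 : ∀ y : ℕ, M * y ≤ M * p * y := fun y => Nat.mul_le_mul_right y hMp2
  have l3 : ∀ y : ℕ, p * y ≤ M * p * y := fun y => Nat.mul_le_mul_right y hMp3
  have l4 : ∀ y : ℕ, k * y ≤ 2 * (M * y) := fun y => by
    have := Nat.mul_le_mul_right y hk
    calc k * y ≤ 2 * M * y := this
      _ = 2 * (M * y) := by ring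
  have g1 : 10000 * (M * p * D) ≤ Δ := by
    refine le_trans (le_of_eq ?_) hD
    ring
  have g2 : 10000 * (M * p * r) ≤ Δ := by
    refine le_trans (le_of_eq ?_) hr
    ring
  have g3 : 10000 * (M * p * e) ≤ Δ := by
    refine le_trans (le_of_eq ?_) he
    ring
  have g4 : 500 * (M * p * D) ≤ z := by
    refine le_trans (le_of_eq ?_) hDz
    ring
  have g5 : 500 * (M * p * r) ≤ z := by
    refine le_trans (le_of_eq ?_) hrz
    ring
  have g6 : 500 * (M * p * e) ≤ z := by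
    refine le_trans (le_of_eq ?_) hez
    ring
  have hkr := l4 r
  have hke := l4 e
  have hksd := l4 (s * d)
  have hkKd := l4 (K * d)
  have hkKq := l4 Kq
  have a1 := l1 D
  have a2 := l1 r
  have a3 := l1 e
  have a4 := l2 D
  have a5 := l2 r
  have a6 := l2 e
  have a7 := l3 D
  have a8 := l3 r
  have a9 := l3 e
  have i1 : 8 * s * p * d = 8 * (s * p * d) := by ring
  have i2 : 4 * p * r = 4 * (p * r) := by ring
  have i3 : 2 * p * D = 2 * (p * D) := by ring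
  have i4 : 2 * k * r = 2 * (k * r) := by ring
  have i5 : 2 * k * e = 2 * (k * e) := by ring
  have i6 : 6 * K * p * d = 6 * (K * p * d) := by ring
  have i7 : 2 * k * s * d = 2 * (k * (s * d)) := by ring
  have i8 : 4 * k * K * d = 4 * (k * (K * d)) := by ring
  have i9 : (4 * M + Kq + 4) * (d + 2 * p) = 4 * (M * d) + Kq * d + 4 * d +
      2 * ((4 * M + Kq + 4) * p) := by ring
  have i10 : 2 * k * Kq = 2 * (k * Kq) := by ring
  have i11 : M * (s * d) = M * s * d := by ring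
  have i12 : M * (K * d) = M * K * d := by ring
  rw [i11] at hksd
  rw [i12] at hkKd
  rw [i1, i2, i3, i4, i5, i6, i7, i8, i9, i10]
  clear i1 i2 i3 i4 i5 i6 i7 i8 i9 i10 i11 i12 eA hA hAd hD hr he hDz hrz hez l1 l2 l3 l4 hk
  generalize hx1 : K * p * d = x1 at *
  generalize hx2 : M * s * d = x2 at *
  generalize hx3 : M * K * d = x3 at *
  generalize hx4 : s * p * d = x4 at *
  generalize hx5 : M * d = x5 at *
  generalize hx6 : Kq * d = x6 at *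
  generalize hx7 : M * p * D = x7 at *
  generalize hx8 : M * p * r = x8 at *
  generalize hx9 : M * p * e = x9 at *
  generalize hy1 : k * r = y1 at *
  generalize hy2 : k * e = y2 at *
  generalize hy3 : k * (s * d) = y3 at *
  generalize hy4 : k * (K * d) = y4 at *
  generalize hy5 : k * Kq = y5 at *
  generalize hy6 : p * r = y6 at *
  generalize hy7 : p * D = y7 at *
  generalize hy8 : p * e = y8 at *
  generalize hy9 : (4 * M + Kq + 4) * p = y9 at *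
  generalize hw1 : M * r = w1 at *
  generalize hw2 : M * e = w2 at *
  generalize hw3 : M * D = w3 at *
  generalize hw4 : M * Kq = w4 at *
  refine ⟨by omega, by omega, by omega, by omega, by omega, by omega, by omega, by omega,
    by omega, by omega, by omega, by omega, by omega⟩

theorem gap (c x : ℝ) (p : ℕ) (hc : 0 < c) (hc1 : c ≤ 1) (hx : 0 < x) (hx1 : x ≤ 1)
    (hp : 2 ≤ p) :
    ∃ g0 : ℕ, ∀ g : ℕ, g0 ≤ g → ∀ κ : ℝ, 0 < κ → ∃ ξ0 : ℝ, 0 < ξ0 ∧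
      ∀ ξ ζ : ℝ, 0 < ξ → ξ ≤ ξ0 → 0 < ζ → ∃ (δ f0 : ℝ) (n0 : ℕ), 0 < δ ∧ 0 < f0 ∧
        ∀ (V : Type) [Fintype V] (G : SimpleGraph V) (Δ k KE KB t : ℕ) (f η f1 : ℝ)
          (ty : ℕ → Prop) (nd qt : V → ℕ) (sf : ℕ → Finset V) (φ : ℕ → V → V) (c0 : V → ℕ),
          n0 ≤ Fintype.card V → c * Fintype.card V ≤ Δ → 0 ≤ f → f ≤ f0 →
          η ≤ 1 / 100 → 6 * g * t ≤ Δ → Str G Δ c x ξ ζ f k ty nd sf →
          Spl G k ty nd qt η KE KB f1 → FcP G Δ p k ty nd qt t δ φ c0 →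
          ∃ (cc : V → ℕ) (S : V → Finset ℕ), GaP G Δ p k ty nd qt t κ φ cc S := by
  obtain ⟨η1, s, n1, hη1, hη14, hs, hchg⟩ := chg c x hc hc1 hx hx1
  obtain ⟨M, hM⟩ : ∃ M : ℕ, M = ⌈1 / c⌉₊ := ⟨_, rfl⟩
  have hMc : 1 ≤ (M : ℝ) * c := by
    have h := Nat.le_ceil (1 / c)
    rw [← hM, div_le_iff₀ hc] at h
    exact h
  have hM1 : 1 ≤ M := by
    rcases Nat.eq_zero_or_pos M with h | h
    · rw [h] at hMc; norm_num at hMc
    · exact h
  have hMR : (1 : ℝ) ≤ M := by exact_mod_cast hM1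
  have hp1 : 1 ≤ p := by omega
  have hpR : (1 : ℝ) ≤ p := by exact_mod_cast hp1
  obtain ⟨K, hK⟩ : ∃ K : ℕ, K = 4 * M * p + 1 := ⟨_, rfl⟩
  obtain ⟨Kq, hKq⟩ : ∃ Kq : ℕ, Kq = 4 * p * (K + s) := ⟨_, rfl⟩
  obtain ⟨A, hA⟩ : ∃ A : ℕ, A = ⌈64 * ((s : ℝ) * p) / η1⌉₊ +
      (64 * (6 * K * p + 4 * M * s + 8 * M * K) + 64 * (4 * M + Kq + 4) + 1000 * s * p
        + 100) := ⟨_, rfl⟩
  have hA1 : 64 * ((s : ℝ) * p) ≤ η1 * A := by
    have h1 : 64 * ((s : ℝ) * p) / η1 ≤ A := by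
      refine (Nat.le_ceil _).trans ?_
      have : ⌈64 * ((s : ℝ) * p) / η1⌉₊ ≤ A := by rw [hA]; exact Nat.le_add_right _ _
      exact_mod_cast this
    rw [div_le_iff₀ hη1] at h1
    linarith
  have hA2 : 64 * (6 * K * p + 4 * M * s + 8 * M * K) + 64 * (4 * M + Kq + 4) + 1000 * s * p
      + 100 ≤ A := by
    rw [hA]; exact Nat.le_add_left _ _
  have hA3 : 100 ≤ A := by omega
  have hA0 : (0 : ℝ) < A := by
    have : 0 < A := by omega
    exact_mod_cast this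
  refine ⟨max 200 ⌈4 / η1⌉₊, fun g hg κ hκ => ⟨c / (2 * A), by positivity,
    fun ξ ζ hξ hξ0 hζ => ?_⟩⟩
  have hg1 : 200 ≤ g := (le_max_left _ _).trans hg
  have hg2 : 4 ≤ η1 * g := by
    have h1 : 4 / η1 ≤ g := by
      refine (Nat.le_ceil _).trans ?_
      exact_mod_cast (le_max_right _ _).trans hg
    rw [div_le_iff₀ hη1] at h1
    linarith
  obtain ⟨ζ', hz0, hz1, hz2⟩ : ∃ ζ' : ℝ, 0 < ζ' ∧ ζ' ≤ ζ ∧ ζ' ≤ c / 10 :=
    ⟨min ζ (c / 10), lt_min hζ (by positivity), min_le_left _ _, min_le_right _ _⟩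
  obtain ⟨τ, ht0, ht1, ht2, ht3⟩ : ∃ τ : ℝ, 0 < τ ∧ 1000 * (M * p) * τ ≤ ζ' ∧ τ ≤ κ / 2 ∧
      4 * τ ≤ c * η1 := by
    refine ⟨min (ζ' / (1000 * (M * p))) (min (κ / 2) (c * η1 / 4)), lt_min (by positivity)
      (lt_min (by positivity) (by positivity)), ?_, (min_le_right _ _).trans (min_le_left _ _), ?_⟩
    · have h1 : min (ζ' / (1000 * (M * p))) (min (κ / 2) (c * η1 / 4)) ≤
        ζ' / (1000 * (M * p)) := min_le_left _ _
      rw [le_div_iff₀ (by positivity)] at h1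
      linarith
    · have h1 : min (ζ' / (1000 * (M * p))) (min (κ / 2) (c * η1 / 4)) ≤ c * η1 / 4 :=
        (min_le_right _ _).trans (min_le_right _ _)
      linarith
  obtain ⟨N1, hN1⟩ := gp_big (2 * A) c hc
  obtain ⟨N2, hN2⟩ := gp_big 2 τ ht0
  obtain ⟨N3, hN3⟩ := gp_big 100 ζ' hz0
  obtain ⟨N4, hN4⟩ := gp_big (2 * (4 * M * (4 * M + 2 * Kq + 4) : ℕ)) κ hκ
  obtain ⟨N5, hN5⟩ := gp_big ((64 * ((4 * M + Kq + 4) * p) + 64 * (M * Kq) + 1000 * p + 60 * K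
    + 1000 : ℕ)) c hc
  obtain ⟨N6, hN6⟩ := gp_big (48 * p) (c * η1) (mul_pos hc hη1)
  refine ⟨τ / 2, min (τ / 2) ((τ / 2) ^ 2), n1 + N1 + N2 + N3 + N4 + N5 + N6, by positivity,
    lt_min (by positivity) (by positivity), ?_⟩
  intro V _ G Δ k KE KB t f η f1 ty nd qt sf φ c0 hn hcn hf0 hf hη htg hS hP hφ
  obtain ⟨n, hnn⟩ : ∃ n : ℝ, n = (Fintype.card V : ℝ) := ⟨_, rfl⟩
  have b1 : 2 * (A : ℝ) ≤ c * n := hnn ▸ hN1 _ (by omega)
  have b2 : 2 ≤ τ * n := hnn ▸ hN2 _ (by omega)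
  have b3 : 100 ≤ ζ' * n := hnn ▸ hN3 _ (by omega)
  have b4 : 2 * ((4 * M * (4 * M + 2 * Kq + 4) : ℕ) : ℝ) ≤ κ * n := hnn ▸ hN4 _ (by omega)
  have b5 : ((64 * ((4 * M + Kq + 4) * p) + 64 * (M * Kq) + 1000 * p + 60 * K
    + 1000 : ℕ) : ℝ) ≤ c * n := hnn ▸ hN5 _ (by omega)
  have b6 : 48 * (p : ℝ) ≤ c * η1 * n := hnn ▸ hN6 _ (by omega)
  rw [← hnn] at hcn
  have hn0 : 0 ≤ n := hnn ▸ Nat.cast_nonneg _
  have ht1200 : 1200 * t ≤ Δ := (Nat.mul_le_mul_right t (by omega)).trans htg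
  -- the parameters
  obtain ⟨d, hd⟩ : ∃ d : ℕ, d = ⌈ξ * n⌉₊ := ⟨_, rfl⟩
  obtain ⟨D, hD⟩ : ∃ D : ℕ, D = ⌈τ / 2 * n⌉₊ := ⟨_, rfl⟩
  obtain ⟨r, hr⟩ : ∃ r : ℕ, r = ⌈f * n⌉₊ := ⟨_, rfl⟩
  obtain ⟨e, he⟩ : ∃ e : ℕ, e = ⌈√f * n⌉₊ := ⟨_, rfl⟩
  obtain ⟨z, hz⟩ : ∃ z : ℕ, z = ⌊ζ' * n⌋₊ := ⟨_, rfl⟩
  have hd1 : ξ * n ≤ d := by rw [hd]; exact Nat.le_ceil _
  have hd2 : (d : ℝ) ≤ ξ * n + 1 := by rw [hd]; exact (Nat.ceil_lt_add_one (by positivity)).le
  have hD1 : τ / 2 * n ≤ D := by rw [hD]; exact Nat.le_ceil _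
  have hD2 : (D : ℝ) ≤ τ * n := by
    have : (D : ℝ) ≤ τ / 2 * n + 1 := by
      rw [hD]; exact (Nat.ceil_lt_add_one (by positivity)).le
    linarith
  have hr1 : f * n ≤ r := by rw [hr]; exact Nat.le_ceil _
  have hr2 : (r : ℝ) ≤ τ * n := by
    have h1 : (r : ℝ) ≤ f * n + 1 := by rw [hr]; exact (Nat.ceil_lt_add_one (by positivity)).le
    have h2 : f * n ≤ τ / 2 * n := mul_le_mul_of_nonneg_right (hf.trans (min_le_left _ _)) hn0
    linarith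
  have he0 : √f * n ≤ e := by rw [he]; exact Nat.le_ceil _
  have he1 : f * n ^ 2 ≤ (e : ℝ) ^ 2 := by
    have h1 : (√f * n) ^ 2 ≤ (e : ℝ) ^ 2 := pow_le_pow_left₀ (by positivity) he0 2
    rw [mul_pow, Real.sq_sqrt hf0] at h1
    exact h1
  have he2 : (e : ℝ) ≤ τ * n := by
    have h1 : (e : ℝ) ≤ √f * n + 1 := by
      rw [he]; exact (Nat.ceil_lt_add_one (by positivity)).le
    have h2 : √f ≤ τ / 2 := by
      rw [show τ / 2 = √((τ / 2) ^ 2) from (Real.sqrt_sq (by positivity)).symm]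
      exact Real.sqrt_le_sqrt (hf.trans (min_le_right _ _))
    have h3 : √f * n ≤ τ / 2 * n := mul_le_mul_of_nonneg_right h2 hn0
    linarith
  have hz3 : (z : ℝ) ≤ ζ' * n := by rw [hz]; exact Nat.floor_le (by positivity)
  have hz4 : ζ' * n - 1 ≤ z := by
    rw [hz]; exact (Nat.sub_one_lt_floor _).le
  have hz5 : ζ' * n ≤ ζ * n := mul_le_mul_of_nonneg_right hz1 hn0
  have hz6 : 10 * (ζ' * n) ≤ c * n := by
    have := mul_le_mul_of_nonneg_right hz2 hn0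
    linarith
  have hτn : 1000 * (M * p) * (τ * n) ≤ ζ' * n := by
    have := mul_le_mul_of_nonneg_right ht1 hn0
    linarith
  have hAd : A * d ≤ Δ := by
    have h1 : (A : ℝ) * (ξ * n) ≤ c * n / 2 := by
      have h2 : (A : ℝ) * ξ ≤ c / 2 := by
        have h3 : ξ * (2 * A) ≤ c := by
          rw [le_div_iff₀ (by positivity)] at hξ0
          exact hξ0
        linarith
      have := mul_le_mul_of_nonneg_right h2 hn0
      linarith
    have h4 : (A : ℝ) * d ≤ A * (ξ * n + 1) := mul_le_mul_of_nonneg_left hd2 hA0.le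
    have h5 : (A : ℝ) * d ≤ Δ := by linarith
    exact_mod_cast h5
  have hMp0 : (0 : ℝ) ≤ M * p := by positivity
  have hsmall : ∀ y : ℕ, (y : ℝ) ≤ τ * n →
      10000 * (M * p) * y ≤ Δ ∧ 500 * (M * p) * y ≤ z := by
    intro y hy
    have h1 : (M : ℝ) * p * y ≤ M * p * (τ * n) := mul_le_mul_of_nonneg_left hy hMp0
    have h2 : 10000 * ((M : ℝ) * p) * y ≤ Δ := by nlinarith
    have h3 : 500 * ((M : ℝ) * p) * y ≤ z := by nlinarith
    exact ⟨by exact_mod_cast h2, by exact_mod_cast h3⟩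
  have hk : k ≤ 2 * M := by
    have h1 := hS.kc
    have h2 : (k : ℝ) ≤ 2 * M := by
      rcases le_or_gt (k : ℝ) (2 * M) with h | h
      · exact h
      · nlinarith
    exact_mod_cast h2
  have hΔ : (64 * ((4 * M + Kq + 4) * p) + 64 * (M * Kq) + 1000 * p + 60 * K
      + 1000 : ℕ) ≤ Δ := by
    have := b5.trans hcn
    exact_mod_cast this
  have hzz : 0 < z := by
    have : (0 : ℝ) < z := by linarith
    exact_mod_cast this
  have h10z : 10 * z ≤ Δ := by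
    have : 10 * (z : ℝ) ≤ Δ := by linarith
    exact_mod_cast this
  obtain ⟨m1, m2, m3, m4, m5, m6, m7, m8, m9, m10, m11, m12, m13⟩ := gp_num M K Kq s p A Δ k d D
    r z e t hM1 hp1 hA2 hk hAd ht1200 (hsmall D hD2).1 (hsmall r hr2).1 (hsmall e he2).1 h10z
    (hsmall D hD2).2 (hsmall r hr2).2 (hsmall e he2).2 hzz hΔ
  have hMn : Fintype.card V ≤ M * Δ := by
    have h1 : n ≤ M * Δ := by
      have h2 : (M : ℝ) * (c * n) ≤ M * Δ := mul_le_mul_of_nonneg_left hcn (by linarith)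
      nlinarith
    rw [hnn] at h1
    exact_mod_cast h1
  have hFy : Fy G Δ p k ty nd qt sf t φ c0 d D r z e :=
    fyc G Δ p k KE KB t c x ξ ζ f η f1 (τ / 2) ty nd qt sf φ c0 d D r z e hS hP hφ hp1 hη
      (hnn ▸ hd1) (hnn ▸ hD1) (hnn ▸ hr1) (hnn ▸ hz3.trans hz5) (hnn ▸ he1) m1 m2
  have hch : ∀ i < k, ty i → 11 * Δ < 10 * (pt nd (2 * i)).card →
      ∃ (m : ℕ) (γ : V → ℕ), Grp G (pt nd (2 * i)) m s γ ∧
        m + (8 * s * p * d + 2 * t + 6 * p + r) ≤ Δ := by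
    intro i hi hty hbig
    obtain ⟨m, γ, hG, hm⟩ := hchg V G Δ (pt nd (2 * i)) (by omega) (fun v => (hS.reg v).le)
      (hnn ▸ hcn) hbig (hS.e3 i hi hty)
    refine ⟨m, γ, hG, ?_⟩
    have h1 : 64 * ((s : ℝ) * p) * d ≤ η1 * Δ := by
      have h2 : 64 * ((s : ℝ) * p) * d ≤ η1 * A * d :=
        mul_le_mul_of_nonneg_right hA1 (Nat.cast_nonneg _)
      have h3 : (A : ℝ) * d ≤ Δ := by exact_mod_cast hAd
      have h4 := mul_le_mul_of_nonneg_left h3 hη1.le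
      linarith
    have h5 : 24 * (t : ℝ) ≤ η1 * Δ := by
      have h6 : 6 * (g : ℝ) * t ≤ Δ := by exact_mod_cast htg
      have h7 := mul_le_mul_of_nonneg_left h6 hη1.le
      have h8 := mul_le_mul_of_nonneg_right hg2 (Nat.cast_nonneg t : (0 : ℝ) ≤ t)
      nlinarith
    have h11 := mul_le_mul_of_nonneg_left hcn hη1.le
    have h9 : 4 * (r : ℝ) ≤ η1 * Δ := by
      have h10 := mul_le_mul_of_nonneg_right ht3 hn0
      nlinarith
    have h13 : 48 * (p : ℝ) ≤ η1 * Δ := by nlinarith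
    have h12 : (m : ℝ) + (8 * s * p * d + 2 * t + 6 * p + r) ≤ Δ := by
      have : (0 : ℝ) ≤ η1 * Δ := by positivity
      nlinarith
    exact_mod_cast h12
  have hgr := gry G Δ p k ty nd qt sf t φ c0 d D r z e hFy s (8 * s * p * d + 2 * t + 6 * p + r)
    hs m3 m4 m5 hch
  obtain ⟨cc, hcc⟩ := cop G Δ p k ty nd qt sf t φ c0 d D r z e hFy hp s
    (8 * s * p * d + 2 * t + 6 * p + r) hs le_rfl
    m6 hgr m7 M K hMn hK.ge m8 m9 m10 m11
  rw [← hKq] at hcc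
  obtain ⟨S, hS2⟩ := hop G Δ p k ty nd qt sf t φ c0 d D r z e hFy hp1 Kq cc hcc M hMn m12 m13
    κ (by
    rw [← hnn]
    have h1 : 2 * k * (4 * M + 2 * Kq + 4) ≤ 4 * M * (4 * M + 2 * Kq + 4) :=
      Nat.mul_le_mul_right _ (by omega)
    have h2 : ((2 * k * (4 * M + 2 * Kq + 4) : ℕ) : ℝ) ≤
        ((4 * M * (4 * M + 2 * Kq + 4) : ℕ) : ℝ) := by exact_mod_cast h1
    have h3 : τ * n ≤ κ / 2 * n := mul_le_mul_of_nonneg_right ht2 hn0
    rw [Nat.cast_add]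
    linarith)
  exact ⟨cc, S, hS2⟩

end Pool.Agent.H46.GP
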