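import Mathlib
import Pool.Agent.H33.TDP.St
import Pool.Agent.H46.GP.Gap

/-!
The statement `GaStP` from `gap`.
-/

set_option autoImplicit false

namespace Pool.Agent.H46.GP

open Finset Classical
open Pool.Agent.H71.DN Pool.Agent.H71.DX Pool.Agent.H71.DR Pool.Agent.H71.HL Pool.Agent.H71.DC
open Pool.Agent.H71.TD Pool.Agent.H90.TDP Pool.Agent.H46.GA Pool.Agent.H33.TDP

theorem gaStP (c x : ℝ) (p : ℕ) (hc : 0 < c) (hc1 : c ≤ 1) (hx : 0 < x) (hx1 : x ≤ 1)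
    (hp : 2 ≤ p) : GaStP c x p := by
  obtain ⟨g0, h⟩ := gap c x p hc hc1 hx hx1 hp
  refine ⟨g0 + 3, fun g hg κ hκ => ?_⟩
  obtain ⟨ξ0, hξ0, h1⟩ := h g (by omega) κ hκ
  refine ⟨ξ0, hξ0, fun ξ ζ hξ hξ1 hζ => ?_⟩
  obtain ⟨δ, f0, n0, hδ, hf0, h2⟩ := h1 ξ ζ hξ hξ1 hζ
  obtain ⟨N, hN⟩ := gp_big (2 * p : ℝ) c hc
  refine ⟨δ, f0, n0 + N, hδ, hf0, ?_⟩
  intro V _ G Δ k KE KB f η f1 ty nd qt sf φ c0 hn hcn hf hff _ _ hη hS hP hφ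
  refine h2 V G Δ k KE KB _ f η f1 ty nd qt sf φ c0 (by omega) hcn hf hff hη ?_ hS hP hφ
  have h3 : 2 * p ≤ Δ := by
    have h4 : (2 * p : ℝ) ≤ Δ := (hN _ (by omega)).trans hcn
    exact_mod_cast h4
  have h5 := Nat.mul_div_le (Δ + 2 * p - 2) (12 * g)
  have h6 : 12 * g * ((Δ + 2 * p - 2) / (12 * g)) =
      2 * (6 * g * ((Δ + 2 * p - 2) / (12 * g))) := by ring
  omega

end Pool.Agent.H46.GP
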